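import Mathlib

/-!
Potential theory of finite reversible chains: the network on a connected graph `G` whose conductances are
`w x * w y` for a positive weight `w`.
-/

set_option autoImplicit false
set_option linter.unusedSectionVars false

namespace Pool.Agent.TH112.BW

open Finset

variable {V : Type} [Fintype V] [DecidableEq V] (G : SimpleGraph V) [DecidableRel G.Adj]

/-- unnormalised Laplacian -/
noncomputable def lap (w : V → ℝ) (f : V → ℝ) (x : V) : ℝ := ∑ y ∈ G.neighborFinset x, w y * (f x - f y)

/-- sum of the weights of the neighbours -/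
noncomputable def dg (w : V → ℝ) (x : V) : ℝ := ∑ y ∈ G.neighborFinset x, w y

/-- total conductance -/
noncomputable def tot (w : V → ℝ) : ℝ := ∑ x, w x * dg G w x

theorem lap_eq (w f : V → ℝ) (x : V) :
    lap G w f x = dg G w x * f x - ∑ y ∈ G.neighborFinset x, w y * f y := by
  unfold lap dg
  rw [Finset.sum_mul, ← Finset.sum_sub_distrib]
  exact Finset.sum_congr rfl fun y _ => by ring

/-- minimum principle -/
theorem min_principle (hG : G.Connected) (w : V → ℝ) (hw : ∀ x, 0 < w x) (Z : V → Prop) (z0 : V) (hz0 : Z z0)
    (f : V → ℝ) (hf : ∀ x, ¬ Z x → 0 ≤ lap G w f x) (hZ : ∀ x, Z x → 0 ≤ f x) : ∀ x, 0 ≤ f x := by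
  obtain ⟨x0, -, hx0⟩ := Finset.exists_min_image (Finset.univ : Finset V) f ⟨z0, Finset.mem_univ _⟩
  intro x
  by_contra hx
  have hneg : f x0 < 0 := lt_of_le_of_lt (hx0 x (Finset.mem_univ _)) (not_le.mp hx)
  -- propagate
  have key : ∀ y, G.Reachable x0 y → f y = f x0 := by
    intro y hy
    obtain ⟨p⟩ := hy
    have : ∀ (u v : V) (p : G.Walk u v), f u = f x0 → f v = f x0 := by
      intro u v p
      induction p with
      | nil => exact fun h => h
      | @cons u v w' h p ih =>
        intro hu
        apply ih
        have hnz : ¬ Z u := fun hz => by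
          have := hZ u hz
          rw [hu] at this
          exact absurd hneg (not_lt.mpr this)
        have h1 := hf u hnz
        unfold lap at h1
        have hle : ∀ y ∈ G.neighborFinset u, w y * (f u - f y) ≤ 0 := by
          intro y _
          have h2 : f u - f y ≤ 0 := by
            rw [hu]
            linarith [hx0 y (Finset.mem_univ _)]
          exact mul_nonpos_of_nonneg_of_nonpos (hw y).le h2
        have h3 : ∑ y ∈ G.neighborFinset u, w y * (f u - f y) = 0 :=
          le_antisymm (Finset.sum_nonpos hle) h1
        have h4 := (Finset.sum_eq_zero_iff_of_nonpos hle).mp h3 v (by simpa using h)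
        have h5 : f u - f v = 0 := by
          rcases mul_eq_zero.mp h4 with h' | h'
          · exact absurd h' (hw v).ne'
          · exact h'
        linarith
    exact this x0 y p rfl
  have h6 := key z0 (hG.preconnected x0 z0)
  have h7 := hZ z0 hz0
  rw [h6] at h7
  exact absurd hneg (not_lt.mpr h7)

/-- the Dirichlet problem has a solution -/
theorem exists_sol (hG : G.Connected) (w : V → ℝ) (hw : ∀ x, 0 < w x) (Z : V → Prop) (z0 : V) (hz0 : Z z0)
    (g bd : V → ℝ) : ∃ f : V → ℝ, (∀ x, Z x → f x = bd x) ∧ ∀ x, ¬ Z x → lap G w f x = g x := by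
  classical
  let L : (V → ℝ) →ₗ[ℝ] (V → ℝ) :=
    { toFun := fun f x => if Z x then f x else lap G w f x
      map_add' := by
        intro f h
        funext x
        by_cases hx : Z x
        · simp [hx]
        · simp only [hx, if_false, Pi.add_apply]
          unfold lap
          rw [← Finset.sum_add_distrib]
          exact Finset.sum_congr rfl fun y _ => by simp only [Pi.add_apply]; ring
      map_smul' := by
        intro c f
        funext x
        by_cases hx : Z x
        · simp [hx]
        · simp only [hx, if_false, Pi.smul_apply, smul_eq_mul, RingHom.id_apply]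
          unfold lap
          rw [Finset.mul_sum]
          exact Finset.sum_congr rfl fun y _ => by simp only [Pi.smul_apply, smul_eq_mul]; ring }
  have hinj : Function.Injective L := by
    rw [injective_iff_map_eq_zero]
    intro f hf
    have h0 : ∀ x, (if Z x then f x else lap G w f x) = 0 := fun x => congrFun hf x
    have hpos := min_principle G hG w hw Z z0 hz0 f
      (fun x hx => by have := h0 x; rw [if_neg hx] at this; exact this.ge)
      (fun x hx => by have := h0 x; rw [if_pos hx] at this; exact this.ge)
    have hneg := min_principle G hG w hw Z z0 hz0 (fun x => - f x)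
      (fun x hx => by
        have := h0 x
        rw [if_neg hx] at this
        have h2 : lap G w (fun x => - f x) x = - lap G w f x := by
          unfold lap
          rw [← Finset.sum_neg_distrib]
          exact Finset.sum_congr rfl fun y _ => by ring
        rw [h2, this]; simp)
      (fun x hx => by have := h0 x; rw [if_pos hx] at this; simp [this])
    funext x
    have := hpos x
    have := hneg x
    simp only [Pi.zero_apply]
    linarith
  have hsurj : Function.Surjective L := LinearMap.injective_iff_surjective.mp hinj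
  obtain ⟨f, hf⟩ := hsurj (fun x => if Z x then bd x else g x)
  refine ⟨f, fun x hx => ?_, fun x hx => ?_⟩
  · have := congrFun hf x
    simpa [L, hx] using this
  · have := congrFun hf x
    simpa [L, hx] using this

/-- reindexing of sums over ordered adjacent pairs -/
theorem sum_adj_swap (F : V → V → ℝ) :
    ∑ x, ∑ y ∈ G.neighborFinset x, F x y = ∑ x, ∑ y ∈ G.neighborFinset x, F y x := by
  have h : ∀ H : V → V → ℝ, ∑ x, ∑ y ∈ G.neighborFinset x, H x y = ∑ x, ∑ y, if G.Adj x y then H x y else 0 := by
    intro H
    refine Finset.sum_congr rfl fun x _ => ?_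
    rw [← Finset.sum_filter]
    refine Finset.sum_congr ?_ fun _ _ => rfl
    ext y
    simp
  rw [h, h, Finset.sum_comm]
  refine Finset.sum_congr rfl fun x _ => Finset.sum_congr rfl fun y _ => ?_
  simp only [G.adj_comm x y]

/-- the total divergence vanishes -/
theorem div_total (w f : V → ℝ) : ∑ x, w x * lap G w f x = 0 := by
  have h1 : ∑ x, w x * lap G w f x = ∑ x, ∑ y ∈ G.neighborFinset x, w x * w y * (f x - f y) := by
    refine Finset.sum_congr rfl fun x _ => ?_
    unfold lap
    rw [Finset.mul_sum]
    exact Finset.sum_congr rfl fun y _ => by ring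
  have h2 := sum_adj_swap G (fun x y => w x * w y * (f x - f y))
  have h3 : ∑ x, ∑ y ∈ G.neighborFinset x, w y * w x * (f y - f x)
      = - ∑ x, ∑ y ∈ G.neighborFinset x, w x * w y * (f x - f y) := by
    rw [← Finset.sum_neg_distrib]
    refine Finset.sum_congr rfl fun x _ => ?_
    rw [← Finset.sum_neg_distrib]
    exact Finset.sum_congr rfl fun y _ => by ring
  rw [h1]
  rw [h3] at h2
  linarith

/-- flow across a level set bounds the flow through an edge -/
theorem flow_bound (w : V → ℝ) (hw : ∀ x, 0 < w x) (f : V → ℝ) (x y : V) (hxy : G.Adj x y) (hf : f y < f x) :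
    w x * w y * (f x - f y) ≤ ∑ z ∈ (Finset.univ : Finset V).filter (fun z => f x ≤ f z), w z * lap G w f z := by
  set S := (Finset.univ : Finset V).filter (fun z => f x ≤ f z) with hS
  -- truncated function
  have h1 : ∑ z ∈ S, w z * lap G w f z
      = ∑ z, ∑ v ∈ G.neighborFinset z, (if f x ≤ f z then w z * w v * (f z - f v) else 0) := by
    rw [hS, Finset.sum_filter]
    refine Finset.sum_congr rfl fun z _ => ?_
    split_ifs with h
    · unfold lap
      rw [Finset.mul_sum]
      exact Finset.sum_congr rfl fun y _ => by ring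
    · simp
  -- split according to whether v is in S
  set A : V → V → ℝ := fun z v => if f x ≤ f z ∧ f x ≤ f v then w z * w v * (f z - f v) else 0 with hA
  set B : V → V → ℝ := fun z v => if f x ≤ f z ∧ ¬ f x ≤ f v then w z * w v * (f z - f v) else 0 with hB
  have h2 : ∑ z, ∑ v ∈ G.neighborFinset z, (if f x ≤ f z then w z * w v * (f z - f v) else 0)
      = ∑ z, ∑ v ∈ G.neighborFinset z, A z v + ∑ z, ∑ v ∈ G.neighborFinset z, B z v := by
    rw [← Finset.sum_add_distrib]
    refine Finset.sum_congr rfl fun z _ => ?_
    rw [← Finset.sum_add_distrib]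
    refine Finset.sum_congr rfl fun v _ => ?_
    simp only [hA, hB]
    by_cases h1 : f x ≤ f z <;> by_cases h2 : f x ≤ f v <;> simp [h1, h2]
  have h3 : ∑ z, ∑ v ∈ G.neighborFinset z, A z v = 0 := by
    have e := sum_adj_swap G A
    have e2 : ∑ x, ∑ y ∈ G.neighborFinset x, A y x = - ∑ x, ∑ y ∈ G.neighborFinset x, A x y := by
      rw [← Finset.sum_neg_distrib]
      refine Finset.sum_congr rfl fun z _ => ?_
      rw [← Finset.sum_neg_distrib]
      refine Finset.sum_congr rfl fun v _ => ?_
      simp only [hA]
      by_cases h1 : f x ≤ f z <;> by_cases h2 : f x ≤ f v <;> simp [h1, h2]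
      ring
    rw [e2] at e
    linarith
  have hBnn : ∀ z v, 0 ≤ B z v := by
    intro z v
    simp only [hB]
    split_ifs with h
    · have h4 : 0 ≤ f z - f v := by
        have := h.1
        have := not_le.mp h.2
        linarith
      exact mul_nonneg (mul_nonneg (hw z).le (hw v).le) h4
    · exact le_refl _
  have h5 : w x * w y * (f x - f y) = B x y := by
    simp only [hB]
    rw [if_pos ⟨le_refl _, not_le.mpr hf⟩]
  rw [h1, h2, h3, zero_add, h5]
  calc B x y ≤ ∑ v ∈ G.neighborFinset x, B x v :=
        Finset.single_le_sum (f := fun v => B x v) (fun v _ => hBnn x v) (by simpa using hxy)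
    _ ≤ ∑ z, ∑ v ∈ G.neighborFinset z, B z v :=
        Finset.single_le_sum (f := fun z => ∑ v ∈ G.neighborFinset z, B z v)
          (fun z _ => Finset.sum_nonneg fun v _ => hBnn z v) (Finset.mem_univ x)

/-- flow condition: every edge carries at most `I` -/
def FlowLe (w f : V → ℝ) (I : ℝ) : Prop := ∀ x y, G.Adj x y → w x * w y * (f x - f y) ≤ I

theorem dg_nonneg (w : V → ℝ) (hw : ∀ x, 0 < w x) (x : V) : 0 ≤ dg G w x :=
  Finset.sum_nonneg fun y _ => (hw y).le

/-- hitting time function -/
theorem exists_hit (hG : G.Connected) (w : V → ℝ) (hw : ∀ x, 0 < w x) (o : V) :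
    ∃ h : V → ℝ, h o = 0 ∧ (∀ x, 0 ≤ h x) ∧ (∀ x, x ≠ o → lap G w h x = dg G w x) ∧
      FlowLe G w h (tot G w) ∧ w o * (∑ y ∈ G.neighborFinset o, w y * h y) = tot G w - w o * dg G w o := by
  obtain ⟨h, h1, h2⟩ := exists_sol G hG w hw (fun x => x = o) o rfl (fun x => dg G w x) (fun _ => 0)
  have hpos : ∀ x, 0 ≤ h x := min_principle G hG w hw (fun x => x = o) o rfl h
    (fun x hx => by rw [h2 x hx]; exact dg_nonneg G w hw x) (fun x hx => by rw [h1 x hx])
  have h0 : h o = 0 := h1 o rfl
  have htot : 0 ≤ tot G w := Finset.sum_nonneg fun x _ => mul_nonneg (hw x).le (dg_nonneg G w hw x)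
  refine ⟨h, h0, hpos, h2, ?_, ?_⟩
  · intro x y hxy
    rcases lt_or_ge (h y) (h x) with hlt | hge
    · refine (flow_bound G w hw h x y hxy hlt).trans ?_
      unfold tot
      have hx0 : h x ≠ 0 := by
        have := hpos y
        intro hh
        rw [hh] at hlt
        linarith
      calc ∑ z ∈ (Finset.univ : Finset V).filter (fun z => h x ≤ h z), w z * lap G w h z
          = ∑ z ∈ (Finset.univ : Finset V).filter (fun z => h x ≤ h z), w z * dg G w z := by
            refine Finset.sum_congr rfl fun z hz => ?_
            have hz' : h x ≤ h z := (Finset.mem_filter.mp hz).2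
            have : z ≠ o := by
              intro hzo
              rw [hzo, h0] at hz'
              exact hx0 (le_antisymm hz' (hpos x))
            rw [h2 z this]
        _ ≤ ∑ z, w z * dg G w z :=
            Finset.sum_le_sum_of_subset_of_nonneg (Finset.filter_subset _ _)
              (fun z _ _ => mul_nonneg (hw z).le (dg_nonneg G w hw z))
    · have : w x * w y * (h x - h y) ≤ 0 :=
        mul_nonpos_of_nonneg_of_nonpos (mul_nonneg (hw x).le (hw y).le) (by linarith)
      linarith
  · have hd := div_total G w h
    rw [← Finset.add_sum_erase _ _ (Finset.mem_univ o)] at hd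
    have h3 : ∑ x ∈ Finset.univ.erase o, w x * lap G w h x = ∑ x ∈ Finset.univ.erase o, w x * dg G w x :=
      Finset.sum_congr rfl fun x hx => by rw [h2 x (Finset.ne_of_mem_erase hx)]
    have h4 : tot G w = w o * dg G w o + ∑ x ∈ Finset.univ.erase o, w x * dg G w x := by
      unfold tot
      rw [← Finset.add_sum_erase _ _ (Finset.mem_univ o)]
    have h5 : lap G w h o = - ∑ y ∈ G.neighborFinset o, w y * h y := by
      rw [lap_eq, h0]; ring
    rw [h3, h5] at hd
    rw [h4]
    linarith

/-- hitting probability function -/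
theorem exists_prob (hG : G.Connected) (w : V → ℝ) (hw : ∀ x, 0 < w x) (o v : V) (hvo : v ≠ o) :
    ∃ q : V → ℝ, q o = 0 ∧ q v = 1 ∧ (∀ x, 0 ≤ q x) ∧ (∀ x, q x ≤ 1) ∧
      (∀ x, x ≠ o → x ≠ v → lap G w q x = 0) ∧
      0 ≤ w o * (∑ y ∈ G.neighborFinset o, w y * q y) ∧
      FlowLe G w q (w o * (∑ y ∈ G.neighborFinset o, w y * q y)) := by
  obtain ⟨q, h1, h2⟩ := exists_sol G hG w hw (fun x => x = o ∨ x = v) o (Or.inl rfl) (fun x => 0)
    (fun x => if x = o then 0 else 1)
  have h0 : q o = 0 := by rw [h1 o (Or.inl rfl)]; simp
  have hv : q v = 1 := by rw [h1 v (Or.inr rfl)]; simp [hvo]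
  have hpos : ∀ x, 0 ≤ q x := min_principle G hG w hw (fun x => x = o ∨ x = v) o (Or.inl rfl) q
    (fun x hx => by rw [h2 x hx]) (fun x hx => by rcases hx with rfl | rfl <;> simp [h0, hv])
  have hle : ∀ x, q x ≤ 1 := by
    have := min_principle G hG w hw (fun x => x = o ∨ x = v) o (Or.inl rfl) (fun x => 1 - q x)
      (fun x hx => by
        have h3 : lap G w (fun x => 1 - q x) x = - lap G w q x := by
          unfold lap
          rw [← Finset.sum_neg_distrib]
          exact Finset.sum_congr rfl fun y _ => by ring
        rw [h3, h2 x hx]; simp)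
      (fun x hx => by rcases hx with rfl | rfl <;> simp [h0, hv])
    intro x
    have := this x
    linarith
  have hI : 0 ≤ w o * (∑ y ∈ G.neighborFinset o, w y * q y) :=
    mul_nonneg (hw o).le (Finset.sum_nonneg fun y _ => mul_nonneg (hw y).le (hpos y))
  refine ⟨q, h0, hv, hpos, hle, fun x hxo hxv => h2 x (by rintro (h | h) <;> contradiction), hI, ?_⟩
  have hdiv : w v * lap G w q v = w o * (∑ y ∈ G.neighborFinset o, w y * q y) := by
    have hd := div_total G w q
    rw [← Finset.add_sum_erase _ _ (Finset.mem_univ o), ← Finset.add_sum_erase _ _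
      (Finset.mem_erase.mpr ⟨hvo, Finset.mem_univ v⟩)] at hd
    have h3 : ∑ x ∈ (Finset.univ.erase o).erase v, w x * lap G w q x = 0 := by
      refine Finset.sum_eq_zero fun x hx => ?_
      have hx' := Finset.mem_erase.mp hx
      rw [h2 x (by rintro (h | h)
                   · exact (Finset.mem_erase.mp hx'.2).1 h
                   · exact hx'.1 h), mul_zero]
    have h5 : lap G w q o = - ∑ y ∈ G.neighborFinset o, w y * q y := by
      rw [lap_eq, h0]; ring
    rw [h3, h5] at hd
    linarith
  intro x y hxy
  rcases lt_or_ge (q y) (q x) with hlt | hge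
  · refine (flow_bound G w hw q x y hxy hlt).trans ?_
    have hx0 : q x ≠ 0 := by
      have := hpos y
      intro hh
      rw [hh] at hlt
      linarith
    have hvm : v ∈ (Finset.univ : Finset V).filter (fun z => q x ≤ q z) := by
      simp [hv, hle x]
    rw [← Finset.add_sum_erase _ _ hvm, hdiv]
    have h3 : ∑ z ∈ ((Finset.univ : Finset V).filter (fun z => q x ≤ q z)).erase v, w z * lap G w q z = 0 := by
      refine Finset.sum_eq_zero fun z hz => ?_
      have hz' := Finset.mem_erase.mp hz
      have hz2 : q x ≤ q z := (Finset.mem_filter.mp hz'.2).2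
      rw [h2 z (by rintro (h | h)
                   · rw [h, h0] at hz2
                     exact hx0 (le_antisymm hz2 (hpos x))
                   · exact hz'.1 h), mul_zero]
    rw [h3, add_zero]
  · have : w x * w y * (q x - q y) ≤ 0 :=
      mul_nonpos_of_nonneg_of_nonpos (mul_nonneg (hw x).le (hw y).le) (by linarith)
    linarith

/-- resistance bound `R` between `x` and `u`: every function whose flow is at most `I` changes by at most `R I` -/
def Res (w : V → ℝ) (x u : V) (R : ℝ) : Prop :=
  ∀ (f : V → ℝ) (I : ℝ), 0 ≤ I → FlowLe G w f I → f x - f u ≤ R * I ∧ f u - f x ≤ R * I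

end Pool.Agent.TH112.BW
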