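import Mathlib
import Pool.Agent.TH112.BW.Pot

/-!
Value iteration for reaching a set of states (position, visited set) with the controlled walk, and the modes:
a reversible chain covers a set of vertices in cycles around a centre, with interrupts at ports.
-/

set_option autoImplicit false
set_option linter.unusedSectionVars false

namespace Pool.Agent.TH112.BW

open Finset

variable {V : Type} [Fintype V] [DecidableEq V] (G : SimpleGraph V) [DecidableRel G.Adj]

open Classical in
/-- optimal expected time to reach the target `D`, truncated after `k` steps -/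
noncomputable def J (ε : ℝ) (hN : ∀ x, (G.neighborFinset x).Nonempty) (D : V → Finset V → Prop) :
    ℕ → V → Finset V → ℝ
  | 0, _, _ => 0
  | k+1, x, S =>
      if D x S then 0 else
      1 + (1 - ε) / (G.degree x : ℝ) * ∑ y ∈ G.neighborFinset x, J ε hN D k y (insert y S)
        + ε * (G.neighborFinset x).inf' (hN x) (fun y => J ε hN D k y (insert y S))

variable {G}
variable {ε : ℝ} (hε0 : 0 ≤ ε) (hε1 : ε ≤ 1) (hN : ∀ x, (G.neighborFinset x).Nonempty)

theorem J_zero (D : V → Finset V → Prop) (x : V) (S : Finset V) : J G ε hN D 0 x S = 0 := rfl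

theorem J_succ_pos (D : V → Finset V → Prop) (k : ℕ) (x : V) (S : Finset V) (h : D x S) :
    J G ε hN D (k+1) x S = 0 := by
  simp [J, h]

theorem J_succ_neg (D : V → Finset V → Prop) (k : ℕ) (x : V) (S : Finset V) (h : ¬ D x S) :
    J G ε hN D (k+1) x S = 1 + (1 - ε) / (G.degree x : ℝ) * ∑ y ∈ G.neighborFinset x, J G ε hN D k y (insert y S)
        + ε * (G.neighborFinset x).inf' (hN x) (fun y => J G ε hN D k y (insert y S)) := by
  simp [J, h]

include hN in
theorem deg_pos (x : V) : 0 < (G.degree x : ℝ) := by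
  have := (hN x).card_pos
  rw [G.card_neighborFinset_eq_degree] at this
  exact_mod_cast this

include hε0 hε1 in
theorem J_nonneg (D : V → Finset V → Prop) (k : ℕ) : ∀ (x : V) (S : Finset V), 0 ≤ J G ε hN D k x S := by
  induction k with
  | zero => intro x S; exact le_refl _
  | succ k ih =>
    intro x S
    by_cases h : D x S
    · rw [J_succ_pos hN D k x S h]
    · rw [J_succ_neg hN D k x S h]
      have h1 : 0 ≤ (1 - ε) / (G.degree x : ℝ) * ∑ y ∈ G.neighborFinset x, J G ε hN D k y (insert y S) :=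
        mul_nonneg (div_nonneg (by linarith) (Nat.cast_nonneg _)) (Finset.sum_nonneg fun y _ => ih y _)
      have h2 : 0 ≤ ε * (G.neighborFinset x).inf' (hN x) (fun y => J G ε hN D k y (insert y S)) :=
        mul_nonneg hε0 ((Finset.le_inf'_iff _ _).mpr fun y _ => ih y _)
      linarith

include hε0 hε1 in
theorem J_le_succ (D : V → Finset V → Prop) (k : ℕ) :
    ∀ (x : V) (S : Finset V), J G ε hN D k x S ≤ J G ε hN D (k+1) x S := by
  induction k with
  | zero => intro x S; rw [J_zero]; exact J_nonneg hε0 hε1 hN D 1 x S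
  | succ k ih =>
    intro x S
    by_cases h : D x S
    · rw [J_succ_pos hN D k x S h, J_succ_pos hN D (k+1) x S h]
    · rw [J_succ_neg hN D k x S h, J_succ_neg hN D (k+1) x S h]
      have h0 : 0 ≤ (1 - ε) / (G.degree x : ℝ) := div_nonneg (by linarith) (Nat.cast_nonneg _)
      have h1 : (1 - ε) / (G.degree x : ℝ) * ∑ y ∈ G.neighborFinset x, J G ε hN D k y (insert y S)
          ≤ (1 - ε) / (G.degree x : ℝ) * ∑ y ∈ G.neighborFinset x, J G ε hN D (k+1) y (insert y S) :=
        mul_le_mul_of_nonneg_left (Finset.sum_le_sum fun y _ => ih y _) h0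
      have h2 : ε * (G.neighborFinset x).inf' (hN x) (fun y => J G ε hN D k y (insert y S))
          ≤ ε * (G.neighborFinset x).inf' (hN x) (fun y => J G ε hN D (k+1) y (insert y S)) :=
        mul_le_mul_of_nonneg_left ((Finset.le_inf'_iff _ _).mpr fun y hy =>
          (Finset.inf'_le _ hy).trans (ih y _)) hε0
      linarith

include hε0 hε1 in
theorem J_mono (D : V → Finset V → Prop) {k l : ℕ} (hkl : k ≤ l) (x : V) (S : Finset V) :
    J G ε hN D k x S ≤ J G ε hN D l x S := by
  induction hkl with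
  | refl => exact le_refl _
  | step _ ih => exact ih.trans (J_le_succ hε0 hε1 hN D _ x S)

include hε0 hε1 in
/-- composition: first reach `D1`, then `D` -/
theorem J_comp (D D1 : V → Finset V → Prop) (k : ℕ) (c : ℝ) (hc : 0 ≤ c)
    (h1 : ∀ x S, D1 x S → x ∈ S → J G ε hN D k x S ≤ c) :
    ∀ x S, x ∈ S → J G ε hN D k x S ≤ J G ε hN D1 k x S + c := by
  have key : ∀ l, l ≤ k → ∀ x S, x ∈ S → J G ε hN D l x S ≤ J G ε hN D1 l x S + c := by
    intro l
    induction l with
    | zero => intro _ x S _; rw [J_zero, J_zero]; linarith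
    | succ l ih =>
      intro hl x S hx
      by_cases hD1 : D1 x S
      · rw [J_succ_pos hN D1 l x S hD1]
        have := (J_mono hε0 hε1 hN D hl x S).trans (h1 x S hD1 hx)
        linarith
      · by_cases hD : D x S
        · rw [J_succ_pos hN D l x S hD]
          have := J_nonneg hε0 hε1 hN D1 (l+1) x S
          linarith
        · rw [J_succ_neg hN D l x S hD, J_succ_neg hN D1 l x S hD1]
          have ih' := ih (by omega)
          have h0 : 0 ≤ (1 - ε) / (G.degree x : ℝ) := div_nonneg (by linarith) (Nat.cast_nonneg _)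
          have hd := deg_pos hN x
          have e1 : (1 - ε) / (G.degree x : ℝ) * ∑ y ∈ G.neighborFinset x, J G ε hN D l y (insert y S)
              ≤ (1 - ε) / (G.degree x : ℝ) * ∑ y ∈ G.neighborFinset x, J G ε hN D1 l y (insert y S)
                + (1 - ε) * c := by
            have e2 : ∑ y ∈ G.neighborFinset x, J G ε hN D l y (insert y S)
                ≤ ∑ y ∈ G.neighborFinset x, J G ε hN D1 l y (insert y S) + (G.degree x : ℝ) * c := by
              have e3 : ∑ y ∈ G.neighborFinset x, J G ε hN D l y (insert y S)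
                  ≤ ∑ y ∈ G.neighborFinset x, (J G ε hN D1 l y (insert y S) + c) :=
                Finset.sum_le_sum fun y _ => ih' y _ (Finset.mem_insert_self _ _)
              rw [Finset.sum_add_distrib, Finset.sum_const, G.card_neighborFinset_eq_degree,
                nsmul_eq_mul] at e3
              exact e3
            calc _ ≤ (1 - ε) / (G.degree x : ℝ) * (∑ y ∈ G.neighborFinset x, J G ε hN D1 l y (insert y S)
                  + (G.degree x : ℝ) * c) := mul_le_mul_of_nonneg_left e2 h0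
              _ = _ := by field_simp
          have e4 : ε * (G.neighborFinset x).inf' (hN x) (fun y => J G ε hN D l y (insert y S))
              ≤ ε * (G.neighborFinset x).inf' (hN x) (fun y => J G ε hN D1 l y (insert y S)) + ε * c := by
            rw [← mul_add]
            refine mul_le_mul_of_nonneg_left ?_ hε0
            obtain ⟨y, hy, hye⟩ := Finset.exists_mem_eq_inf' (hN x) (fun y => J G ε hN D1 l y (insert y S))
            rw [hye]
            exact (Finset.inf'_le _ hy).trans (ih' y _ (Finset.mem_insert_self _ _))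
          linarith
  exact key k (le_refl _)

include hε0 hε1 in
theorem J_anti (D1 D2 : V → Finset V → Prop) (h12 : ∀ x S, D1 x S → D2 x S) (k : ℕ) :
    ∀ x S, J G ε hN D2 k x S ≤ J G ε hN D1 k x S := by
  induction k with
  | zero => intro x S; rw [J_zero, J_zero]
  | succ k ih =>
    intro x S
    by_cases hD2 : D2 x S
    · rw [J_succ_pos hN D2 k x S hD2]
      exact J_nonneg hε0 hε1 hN D1 (k+1) x S
    · have hD1 : ¬ D1 x S := fun h => hD2 (h12 x S h)
      rw [J_succ_neg hN D2 k x S hD2, J_succ_neg hN D1 k x S hD1]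
      have h0 : 0 ≤ (1 - ε) / (G.degree x : ℝ) := div_nonneg (by linarith) (Nat.cast_nonneg _)
      have h1 : (1 - ε) / (G.degree x : ℝ) * ∑ y ∈ G.neighborFinset x, J G ε hN D2 k y (insert y S)
          ≤ (1 - ε) / (G.degree x : ℝ) * ∑ y ∈ G.neighborFinset x, J G ε hN D1 k y (insert y S) :=
        mul_le_mul_of_nonneg_left (Finset.sum_le_sum fun y _ => ih y _) h0
      have h2 : ε * (G.neighborFinset x).inf' (hN x) (fun y => J G ε hN D2 k y (insert y S))
          ≤ ε * (G.neighborFinset x).inf' (hN x) (fun y => J G ε hN D1 k y (insert y S)) :=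
        mul_le_mul_of_nonneg_left ((Finset.le_inf'_iff _ _).mpr fun y hy =>
          (Finset.inf'_le _ hy).trans (ih y _)) hε0
      linarith

/-- admissible weights: the chain with weights `w` can be realised with bias `ε` -/
def Adm (G : SimpleGraph V) [DecidableRel G.Adj] (ε : ℝ) (w : V → ℝ) : Prop :=
  (∀ x, 0 < w x) ∧ ∀ x y z, G.Adj x y → G.Adj x z → (1 - ε) * w z ≤ w y

include hε0 hε1 in
/-- one step of a supersolution -/
theorem J_step (w : V → ℝ) (hw : Adm G ε w) (D : V → Finset V → Prop) (k : ℕ) (x : V) (S : Finset V)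
    (B : V → ℝ) (hB : 0 ≤ B x) (hJ : ∀ y, G.Adj x y → J G ε hN D k y (insert y S) ≤ B y)
    (hlap : dg G w x ≤ lap G w B x) : J G ε hN D (k+1) x S ≤ B x := by
  by_cases hD : D x S
  · rw [J_succ_pos hN D k x S hD]; exact hB
  · rw [J_succ_neg hN D k x S hD]
    have hdeg := deg_pos hN x
    have hdg : 0 < dg G w x := Finset.sum_pos (fun y _ => hw.1 y) (hN x)
    set m := (G.neighborFinset x).inf' (hN x) (fun y => J G ε hN D k y (insert y S)) with hm
    have hmle : ∀ y ∈ G.neighborFinset x, m ≤ J G ε hN D k y (insert y S) := fun y hy => Finset.inf'_le _ hy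
    -- π y = w y / dg
    have hpi : ∀ y ∈ G.neighborFinset x, (1 - ε) / (G.degree x : ℝ) ≤ w y / dg G w x := by
      intro y hy
      rw [div_le_div_iff₀ hdeg hdg]
      unfold dg
      rw [Finset.mul_sum]
      calc ∑ z ∈ G.neighborFinset x, (1 - ε) * w z ≤ ∑ z ∈ G.neighborFinset x, w y :=
            Finset.sum_le_sum fun z hz => hw.2 x y z (by simpa using hy) (by simpa using hz)
        _ = w y * (G.degree x : ℝ) := by
            rw [Finset.sum_const, G.card_neighborFinset_eq_degree, nsmul_eq_mul, mul_comm]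
    have hsum1 : ∑ y ∈ G.neighborFinset x, w y / dg G w x = 1 := by
      rw [← Finset.sum_div]
      exact div_self hdg.ne'
    have hsum2 : ∑ y ∈ G.neighborFinset x, (1 - ε) / (G.degree x : ℝ) = 1 - ε := by
      rw [Finset.sum_const, G.card_neighborFinset_eq_degree, nsmul_eq_mul]
      field_simp
    have h1 : (1 - ε) / (G.degree x : ℝ) * ∑ y ∈ G.neighborFinset x, J G ε hN D k y (insert y S) + ε * m
        ≤ ∑ y ∈ G.neighborFinset x, w y / dg G w x * J G ε hN D k y (insert y S) := by
      have h2 : ∑ y ∈ G.neighborFinset x, (w y / dg G w x - (1 - ε) / (G.degree x : ℝ)) * m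
          ≤ ∑ y ∈ G.neighborFinset x, (w y / dg G w x - (1 - ε) / (G.degree x : ℝ))
            * J G ε hN D k y (insert y S) :=
        Finset.sum_le_sum fun y hy => mul_le_mul_of_nonneg_left (hmle y hy) (by linarith [hpi y hy])
      rw [← Finset.sum_mul, Finset.sum_sub_distrib, hsum1, hsum2] at h2
      have h3 : ∑ y ∈ G.neighborFinset x, (w y / dg G w x - (1 - ε) / (G.degree x : ℝ))
            * J G ε hN D k y (insert y S)
          = ∑ y ∈ G.neighborFinset x, w y / dg G w x * J G ε hN D k y (insert y S)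
            - (1 - ε) / (G.degree x : ℝ) * ∑ y ∈ G.neighborFinset x, J G ε hN D k y (insert y S) := by
        rw [Finset.mul_sum, ← Finset.sum_sub_distrib]
        exact Finset.sum_congr rfl fun y _ => by ring
      rw [h3] at h2
      linarith
    have h4 : ∑ y ∈ G.neighborFinset x, w y / dg G w x * J G ε hN D k y (insert y S)
        ≤ (∑ y ∈ G.neighborFinset x, w y * B y) / dg G w x := by
      rw [Finset.sum_div]
      refine Finset.sum_le_sum fun y hy => ?_
      rw [div_mul_eq_mul_div]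
      exact div_le_div_of_nonneg_right
        (mul_le_mul_of_nonneg_left (hJ y (by simpa using hy)) (hw.1 y).le) hdg.le
    have h5 : (∑ y ∈ G.neighborFinset x, w y * B y) / dg G w x ≤ B x - 1 := by
      rw [div_le_iff₀ hdg]
      rw [lap_eq] at hlap
      linarith
    linarith

/-- target: being at `v` with all of `Y` visited -/
def Dt (v : V) (Y : Finset V) : V → Finset V → Prop := fun x S => x = v ∧ Y ⊆ S

include hε0 hε1 in
/-- the hitting stage -/
theorem J_hit (w : V → ℝ) (hw : Adm G ε w) (o : V) (h : V → ℝ) (_h0 : h o = 0) (hpos : ∀ x, 0 ≤ h x)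
    (hlap : ∀ x, x ≠ o → lap G w h x = dg G w x) (S0 : Finset V) (k : ℕ) :
    ∀ x S, x ∈ S → S0 ⊆ S → J G ε hN (Dt o (insert o S0)) k x S ≤ h x := by
  induction k with
  | zero => intro x S _ _; rw [J_zero]; exact hpos x
  | succ k ih =>
    intro x S hx hS
    by_cases hxo : x = o
    · rw [J_succ_pos hN _ k x S ⟨hxo, Finset.insert_subset (hxo ▸ hx) hS⟩]
      exact hpos x
    · exact J_step hε0 hε1 hN w hw _ k x S h (hpos x)
        (fun y _ => ih y _ (Finset.mem_insert_self _ _) (hS.trans (Finset.subset_insert _ _)))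
        (hlap x hxo).ge

/-- harmonic numbers -/
noncomputable def Hh (n : ℕ) : ℝ := ∑ i ∈ Finset.range n, 1 / ((i : ℝ) + 1)

theorem Hh_step (a n : ℕ) (han : a ≤ n) (hn : 1 ≤ n) : Hh a ≤ Hh n - ((n : ℝ) - a) / n := by
  have hn' : (0 : ℝ) < n := by exact_mod_cast hn
  obtain ⟨d, rfl⟩ := Nat.exists_eq_add_of_le han
  unfold Hh
  rw [Finset.sum_range_add]
  have h1 : ∑ i ∈ Finset.range d, 1 / (((a + d : ℕ) : ℝ)) ≤ ∑ i ∈ Finset.range d, 1 / (((a + i : ℕ) : ℝ) + 1) := by
    refine Finset.sum_le_sum fun i hi => ?_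
    have hi' := Finset.mem_range.mp hi
    refine one_div_le_one_div_of_le (by positivity) ?_
    have : a + i + 1 ≤ a + d := by omega
    exact_mod_cast this
  rw [Finset.sum_const, Finset.card_range, nsmul_eq_mul] at h1
  have h2 : (((a + d : ℕ) : ℝ) - a) / ((a + d : ℕ) : ℝ) = (d : ℝ) * (1 / (((a + d : ℕ) : ℝ))) := by
    push_cast
    rw [mul_one_div]
    congr 1
    ring
  rw [h2]
  linarith

theorem Hh_one_le (n : ℕ) (hn : 1 ≤ n) : 1 ≤ Hh n := by
  have := Hh_step 0 n (Nat.zero_le _) hn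
  have h0 : Hh 0 = 0 := by simp [Hh]
  have hn' : (0 : ℝ) < n := by exact_mod_cast hn
  rw [h0] at this
  have h2 : ((n : ℝ) - ((0 : ℕ) : ℝ)) / n = 1 := by
    rw [Nat.cast_zero, sub_zero]; exact div_self hn'.ne'
  rw [h2] at this
  linarith

theorem Hh_nonneg (n : ℕ) : 0 ≤ Hh n := Finset.sum_nonneg fun i _ => by positivity

theorem Hh_mono {a n : ℕ} (h : a ≤ n) : Hh a ≤ Hh n :=
  Finset.sum_le_sum_of_subset_of_nonneg (Finset.range_mono h) fun i _ _ => by positivity

/-- the potential of the cycle stage -/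
noncomputable def Bp (h : V → ℝ) (q : V → V → ℝ) (g : ℝ) (T : V → ℝ) (N : ℕ) (A : Finset V) (x : V) : ℝ :=
  h x + g * (Hh N - ((N : ℝ) - A.card) / N - (1 / (N : ℝ)) * ∑ v ∈ A, q v x) + ∑ v ∈ A, T v

theorem Bp_nonneg (h : V → ℝ) (q : V → V → ℝ) (g : ℝ) (T : V → ℝ) (N : ℕ) (A : Finset V) (x : V)
    (hpos : ∀ x, 0 ≤ h x) (hq : ∀ v ∈ A, ∀ x, q v x ≤ 1) (hg : 0 ≤ g) (hT : ∀ v ∈ A, 0 ≤ T v) (hN1 : 1 ≤ N) :
    0 ≤ Bp h q g T N A x := by
  unfold Bp
  have hN' : (0 : ℝ) < N := by exact_mod_cast hN1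
  have h1 : ∑ v ∈ A, q v x ≤ A.card := by
    calc ∑ v ∈ A, q v x ≤ ∑ v ∈ A, (1 : ℝ) := Finset.sum_le_sum fun v hv => hq v hv x
      _ = A.card := by simp
  have h2 : (1 / (N : ℝ)) * ∑ v ∈ A, q v x ≤ (1 / (N : ℝ)) * A.card :=
    mul_le_mul_of_nonneg_left h1 (by positivity)
  have h3 : ((N : ℝ) - A.card) / N + (1 / (N : ℝ)) * A.card = 1 := by field_simp; ring
  have h4 := Hh_one_le N hN1
  have h5 : 0 ≤ Hh N - ((N : ℝ) - A.card) / N - (1 / (N : ℝ)) * ∑ v ∈ A, q v x := by linarith
  have h6 := mul_nonneg hg h5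
  have h7 := Finset.sum_nonneg hT
  have h8 := hpos x
  linarith

theorem lap_Bp (w : V → ℝ) (h : V → ℝ) (q : V → V → ℝ) (g : ℝ) (T : V → ℝ) (N : ℕ) (A : Finset V) (x : V) :
    lap G w (Bp h q g T N A) x = lap G w h x - g * (1 / (N : ℝ)) * ∑ v ∈ A, lap G w (q v) x := by
  unfold lap Bp
  have hs : ∑ v ∈ A, ∑ y ∈ G.neighborFinset x, w y * (q v x - q v y)
      = ∑ y ∈ G.neighborFinset x, ∑ v ∈ A, w y * (q v x - q v y) := Finset.sum_comm
  have hs2 : g * (1 / (N : ℝ)) * ∑ y ∈ G.neighborFinset x, ∑ v ∈ A, w y * (q v x - q v y)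
      = ∑ y ∈ G.neighborFinset x, g * (1 / (N : ℝ)) * ∑ v ∈ A, w y * (q v x - q v y) := Finset.mul_sum _ _ _
  rw [hs, hs2, ← Finset.sum_sub_distrib]
  refine Finset.sum_congr rfl fun y _ => ?_
  have hs3 : ∑ v ∈ A, w y * (q v x - q v y) = w y * (∑ v ∈ A, q v x - ∑ v ∈ A, q v y) := by
    rw [← Finset.mul_sum, Finset.sum_sub_distrib]
  rw [hs3]
  ring

theorem Bp_erase (h : V → ℝ) (q : V → V → ℝ) (g : ℝ) (T : V → ℝ) (N : ℕ) (A : Finset V) (y : V) (hy : y ∈ A)
    (hqy : q y y = 1) (hN1 : 1 ≤ N) :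
    T y + Bp h q g T N (A.erase y) y = Bp h q g T N A y := by
  unfold Bp
  have hN' : (0 : ℝ) < N := by exact_mod_cast hN1
  rw [← Finset.add_sum_erase A (fun v => q v y) hy, ← Finset.add_sum_erase A T hy, hqy]
  have hc : (((A.erase y).card : ℕ) : ℝ) = A.card - 1 := by
    rw [Finset.card_erase_of_mem hy]
    have : 1 ≤ A.card := Finset.card_pos.mpr ⟨y, hy⟩
    push_cast [Nat.cast_sub this]
    ring
  rw [hc]
  field_simp
  ring

include hε0 hε1 in
/-- the cycle stage -/
theorem J_cycle (w : V → ℝ) (hw : Adm G ε w) (o : V) (h : V → ℝ) (h0 : h o = 0) (hpos : ∀ x, 0 ≤ h x)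
    (hlap : ∀ x, x ≠ o → lap G w h x = dg G w x)
    (hkac : w o * (∑ y ∈ G.neighborFinset o, w y * h y) = tot G w - w o * dg G w o)
    (A0 : Finset V) (q : V → V → ℝ) (hq0 : ∀ v ∈ A0, q v o = 0) (hq1 : ∀ v ∈ A0, q v v = 1)
    (hqle : ∀ v ∈ A0, ∀ x, q v x ≤ 1) (hqlap : ∀ v ∈ A0, ∀ x, x ≠ o → x ≠ v → lap G w (q v) x = 0)
    (g : ℝ) (hg : 0 ≤ g) (hgI : ∀ v ∈ A0, tot G w ≤ g * (w o * (∑ y ∈ G.neighborFinset o, w y * q v y)))
    (T : V → ℝ) (hT : ∀ v ∈ A0, 0 ≤ T v) (Cov : V → Finset V)
    (hsub : ∀ v ∈ A0, ∀ k S, v ∈ S → J G ε hN (Dt v (S ∪ Cov v)) k v S ≤ T v) (S0 : Finset V) (k : ℕ) :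
    ∀ (A S : Finset V) (x : V) (N : ℕ), A ⊆ A0 → x ∈ S → x ∉ A → A.card ≤ N → 1 ≤ N →
      insert o S0 ∪ (A0 \ A) ∪ (A0 \ A).biUnion Cov ⊆ S →
      J G ε hN (Dt o (insert o S0 ∪ A0 ∪ A0.biUnion Cov)) k x S ≤ Bp h q g T N A x := by
  induction k with
  | zero =>
    intro A S x N hA _ _ _ hN1 _
    rw [J_zero]
    exact Bp_nonneg h q g T N A x hpos (fun v hv => hqle v (hA hv)) hg (fun v hv => hT v (hA hv)) hN1
  | succ k ih =>
    -- successors
    have hsucc : ∀ (A S : Finset V) (y : V) (N : ℕ), A ⊆ A0 → A.card ≤ N → 1 ≤ N →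
        insert o S0 ∪ (A0 \ A) ∪ (A0 \ A).biUnion Cov ⊆ S →
        J G ε hN (Dt o (insert o S0 ∪ A0 ∪ A0.biUnion Cov)) k y (insert y S) ≤ Bp h q g T N A y := by
      intro A S y N hA hAN hN1 hS
      have hS' : insert o S0 ∪ (A0 \ A) ∪ (A0 \ A).biUnion Cov ⊆ insert y S := hS.trans (Finset.subset_insert _ _)
      by_cases hy : y ∈ A
      · have hyA0 := hA hy
        have hBn : 0 ≤ Bp h q g T N (A.erase y) y :=
          Bp_nonneg h q g T N (A.erase y) y hpos
            (fun v hv => hqle v (hA (Finset.mem_of_mem_erase hv))) hg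
            (fun v hv => hT v (hA (Finset.mem_of_mem_erase hv))) hN1
        have hc := J_comp hε0 hε1 hN (Dt o (insert o S0 ∪ A0 ∪ A0.biUnion Cov))
          (Dt y (insert y S ∪ Cov y)) k (Bp h q g T N (A.erase y) y) hBn
          (by
            rintro x' S' ⟨rfl, hsubS⟩ hx'
            refine ih (A.erase x') S' x' N ((Finset.erase_subset _ _).trans hA) hx'
              (Finset.notMem_erase _ _) ((Finset.card_le_card (Finset.erase_subset _ _)).trans hAN) hN1 ?_
            intro z hz
            rw [Finset.mem_union, Finset.mem_union] at hz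
            rcases hz with (hz | hz) | hz
            · exact hsubS (Finset.mem_union_left _ (hS' (Finset.mem_union_left _ (Finset.mem_union_left _ hz))))
            · rw [Finset.mem_sdiff, Finset.mem_erase, not_and] at hz
              by_cases hzx : z = x'
              · rw [hzx]; exact hx'
              · have : z ∉ A := hz.2 hzx
                exact hsubS (Finset.mem_union_left _ (hS' (Finset.mem_union_left _
                  (Finset.mem_union_right _ (Finset.mem_sdiff.mpr ⟨hz.1, this⟩)))))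
            · rw [Finset.mem_biUnion] at hz
              obtain ⟨a, ha, hza⟩ := hz
              rw [Finset.mem_sdiff, Finset.mem_erase, not_and] at ha
              by_cases hax : a = x'
              · rw [hax] at hza
                exact hsubS (Finset.mem_union_right _ hza)
              · have : a ∉ A := ha.2 hax
                exact hsubS (Finset.mem_union_left _ (hS' (Finset.mem_union_right _
                  (Finset.mem_biUnion.mpr ⟨a, Finset.mem_sdiff.mpr ⟨ha.1, this⟩, hza⟩)))))
          y (insert y S) (Finset.mem_insert_self _ _)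
        have hT' := hsub y hyA0 k (insert y S) (Finset.mem_insert_self _ _)
        rw [← Bp_erase h q g T N A y hy (hq1 y hyA0) hN1]
        linarith
      · exact ih A (insert y S) y N hA (Finset.mem_insert_self _ _) hy hAN hN1 hS'
    intro A S x N hA hx hxA hAN hN1 hS
    by_cases hxo : x = o
    · subst hxo
      rcases Finset.eq_empty_or_nonempty A with hAe | hAne
      · have : Dt x (insert x S0 ∪ A0 ∪ A0.biUnion Cov) x S := by
          refine ⟨rfl, ?_⟩
          simpa [hAe] using hS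
        rw [J_succ_pos hN _ k x S this]
        exact Bp_nonneg h q g T N A x hpos (fun v hv => hqle v (hA hv)) hg (fun v hv => hT v (hA hv)) hN1
      · have hc1 : 1 ≤ A.card := Finset.card_pos.mpr hAne
        have hcR : (0 : ℝ) < A.card := by exact_mod_cast hc1
        have hle : Bp h q g T A.card A x ≤ Bp h q g T N A x := by
          unfold Bp
          have hz : ∑ v ∈ A, q v x = 0 := Finset.sum_eq_zero fun v hv => hq0 v (hA hv)
          rw [hz]
          have := Hh_step A.card N hAN hN1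
          have h3 : Hh A.card - ((A.card : ℝ) - A.card) / A.card - 1 / (A.card : ℝ) * 0
              ≤ Hh N - ((N : ℝ) - A.card) / N - 1 / (N : ℝ) * 0 := by
            rw [sub_self, zero_div, mul_zero, mul_zero]
            linarith
          have := mul_le_mul_of_nonneg_left h3 hg
          linarith
        refine le_trans ?_ hle
        refine J_step hε0 hε1 hN w hw _ k x S (Bp h q g T A.card A)
          (Bp_nonneg h q g T A.card A x hpos (fun v hv => hqle v (hA hv)) hg (fun v hv => hT v (hA hv)) hc1)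
          (fun y _ => hsucc A S y A.card hA (le_refl _) hc1 hS) ?_
        rw [lap_Bp]
        have hwx := hw.1 x
        have e1 : lap G w h x = - ∑ y ∈ G.neighborFinset x, w y * h y := by rw [lap_eq, h0]; ring
        have e2 : ∀ v ∈ A, lap G w (q v) x = - ∑ y ∈ G.neighborFinset x, w y * q v y := by
          intro v hv
          rw [lap_eq, hq0 v (hA hv)]; ring
        rw [e1, Finset.sum_congr rfl e2, Finset.sum_neg_distrib]
        -- multiply by w x
        have e3 : (A.card : ℝ) * tot G w ≤ g * (w x * ∑ v ∈ A, ∑ y ∈ G.neighborFinset x, w y * q v y) := by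
          rw [Finset.mul_sum, Finset.mul_sum]
          calc (A.card : ℝ) * tot G w = ∑ v ∈ A, tot G w := by rw [Finset.sum_const, nsmul_eq_mul]
            _ ≤ ∑ v ∈ A, g * (w x * ∑ y ∈ G.neighborFinset x, w y * q v y) :=
                Finset.sum_le_sum fun v hv => hgI v (hA hv)
        have e4 : tot G w ≤ w x * (g * (1 / (A.card : ℝ)) * ∑ v ∈ A, ∑ y ∈ G.neighborFinset x, w y * q v y) := by
          have : w x * (g * (1 / (A.card : ℝ)) * ∑ v ∈ A, ∑ y ∈ G.neighborFinset x, w y * q v y)
              = (g * (w x * ∑ v ∈ A, ∑ y ∈ G.neighborFinset x, w y * q v y)) / A.card := by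
            field_simp
          rw [this, le_div_iff₀ hcR]
          linarith
        have e5 : w x * dg G w x ≤ w x * (-∑ y ∈ G.neighborFinset x, w y * h y
            - g * (1 / (A.card : ℝ)) * -∑ v ∈ A, ∑ y ∈ G.neighborFinset x, w y * q v y) := by
          have : w x * (-∑ y ∈ G.neighborFinset x, w y * h y
              - g * (1 / (A.card : ℝ)) * -∑ v ∈ A, ∑ y ∈ G.neighborFinset x, w y * q v y)
              = - (w x * ∑ y ∈ G.neighborFinset x, w y * h y)
                + w x * (g * (1 / (A.card : ℝ)) * ∑ v ∈ A, ∑ y ∈ G.neighborFinset x, w y * q v y) := by ring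
          rw [this, hkac]
          linarith
        exact le_of_mul_le_mul_left e5 hwx
    · refine J_step hε0 hε1 hN w hw _ k x S (Bp h q g T N A)
          (Bp_nonneg h q g T N A x hpos (fun v hv => hqle v (hA hv)) hg (fun v hv => hT v (hA hv)) hN1)
          (fun y _ => hsucc A S y N hA hAN hN1 hS) ?_
      rw [lap_Bp, hlap x hxo]
      have : ∑ v ∈ A, lap G w (q v) x = 0 := Finset.sum_eq_zero fun v hv =>
        hqlap v (hA hv) x hxo (fun h => hxA (h ▸ hv))
      rw [this]
      simp

include hε0 hε1 in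
/-- a full mode: from the port `p`, cover `A0` (with interrupts) and return to `p` -/
theorem J_mode (hG : G.Connected) (w : V → ℝ) (hw : Adm G ε w) (o p : V) (R : ℝ) (hR : 0 ≤ R)
    (hp : Res G w p o R) (A0 : Finset V) (ho : o ∉ A0) (hA0 : ∀ v ∈ A0, Res G w v o R)
    (T : V → ℝ) (hT : ∀ v ∈ A0, 0 ≤ T v) (Cov : V → Finset V)
    (hsub : ∀ v ∈ A0, ∀ k S, v ∈ S → J G ε hN (Dt v (S ∪ Cov v)) k v S ≤ T v)
    (k : ℕ) (S : Finset V) (hpS : p ∈ S) :
    J G ε hN (Dt p (insert o S ∪ A0 ∪ A0.biUnion Cov)) k p S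
      ≤ tot G w * R * (Hh A0.card + 2) + ∑ v ∈ A0, T v := by
  obtain ⟨h, h0, hpos, hlap, hflow, hkac⟩ := exists_hit G hG w hw.1 o
  obtain ⟨h', h0', hpos', hlap', hflow', -⟩ := exists_hit G hG w hw.1 p
  have htot : 0 ≤ tot G w := Finset.sum_nonneg fun x _ => mul_nonneg (hw.1 x).le (dg_nonneg G w hw.1 x)
  have hq : ∀ v : V, ∃ q : V → ℝ, v ∈ A0 → (q o = 0 ∧ q v = 1 ∧ (∀ x, 0 ≤ q x) ∧ (∀ x, q x ≤ 1) ∧
      (∀ x, x ≠ o → x ≠ v → lap G w q x = 0) ∧
      0 ≤ w o * (∑ y ∈ G.neighborFinset o, w y * q y) ∧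
      FlowLe G w q (w o * (∑ y ∈ G.neighborFinset o, w y * q y))) := by
    intro v
    by_cases hv : v ∈ A0
    · obtain ⟨q, hq⟩ := exists_prob G hG w hw.1 o v (fun h => ho (h ▸ hv))
      exact ⟨q, fun _ => hq⟩
    · exact ⟨fun _ => 0, fun h => absurd h hv⟩
  choose q hq using hq
  set g := tot G w * R with hg
  have hg0 : 0 ≤ g := mul_nonneg htot hR
  have hgI : ∀ v ∈ A0, tot G w ≤ g * (w o * (∑ y ∈ G.neighborFinset o, w y * q v y)) := by
    intro v hv
    obtain ⟨a1, a2, a3, a4, a5, a6, a7⟩ := hq v hv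
    have := (hA0 v hv (q v) _ a6 a7).1
    rw [a1, a2] at this
    have h1 : 1 ≤ R * (w o * (∑ y ∈ G.neighborFinset o, w y * q v y)) := by linarith
    calc tot G w = tot G w * 1 := by ring
      _ ≤ tot G w * (R * (w o * (∑ y ∈ G.neighborFinset o, w y * q v y))) :=
          mul_le_mul_of_nonneg_left h1 htot
      _ = _ := by rw [hg]; ring
  set Y := insert o S ∪ A0 ∪ A0.biUnion Cov with hY
  -- stage 3: from o with Y visited, go to p
  have st3 : ∀ S', o ∈ S' → Y ⊆ S' → J G ε hN (Dt p Y) k o S' ≤ R * tot G w := by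
    intro S' ho' hYS
    have h1 := J_hit hε0 hε1 hN w hw p h' h0' hpos' hlap' Y k o S' ho' hYS
    have h2 : J G ε hN (Dt p Y) k o S' ≤ J G ε hN (Dt p (insert p Y)) k o S' :=
      J_anti hε0 hε1 hN _ _ (fun x S hx => ⟨hx.1, (Finset.subset_insert _ _).trans hx.2⟩) k o S'
    have h3 := (hp h' (tot G w) htot hflow').2
    rw [h0'] at h3
    linarith
  -- stage 2: cycles
  have st2 : ∀ S', o ∈ S' → insert o S ⊆ S' → J G ε hN (Dt p Y) k o S'
      ≤ (g * Hh A0.card + ∑ v ∈ A0, T v) + R * tot G w := by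
    intro S' ho' hS'
    have hc := J_comp hε0 hε1 hN (Dt p Y) (Dt o Y) k (R * tot G w) (mul_nonneg hR htot)
      (by rintro x S'' ⟨rfl, hYS⟩ hx; exact st3 S'' hx hYS) o S' ho'
    have hcy := J_cycle hε0 hε1 hN w hw o h h0 hpos hlap hkac A0 q (fun v hv => (hq v hv).1)
      (fun v hv => (hq v hv).2.1) (fun v hv => (hq v hv).2.2.2.1) (fun v hv => (hq v hv).2.2.2.2.1)
      g hg0 hgI T hT Cov hsub S k A0 S' o (max A0.card 1) (Finset.Subset.refl _) ho' ho
      (le_max_left _ _) (le_max_right _ _) (by simpa using hS')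
    have hB : Bp h q g T (max A0.card 1) A0 o ≤ g * Hh A0.card + ∑ v ∈ A0, T v := by
      unfold Bp
      have hz : ∑ v ∈ A0, q v o = 0 := Finset.sum_eq_zero fun v hv => (hq v hv).1
      rw [hz, h0]
      rcases Nat.eq_zero_or_pos A0.card with hc0 | hc0
      · have h1 : Hh 1 = 1 := by simp [Hh]
        have h2 : Hh 0 = 0 := by simp [Hh]
        rw [hc0]
        simp [h1, h2]
      · rw [max_eq_left hc0]
        simp
    linarith
  -- stage 1
  have hc := J_comp hε0 hε1 hN (Dt p Y) (Dt o (insert o S)) k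
    ((g * Hh A0.card + ∑ v ∈ A0, T v) + R * tot G w)
    (by
      have := mul_nonneg hg0 (Hh_nonneg A0.card)
      have := Finset.sum_nonneg hT
      have := mul_nonneg hR htot
      linarith)
    (by rintro x S' ⟨rfl, hS'⟩ hx; exact st2 S' hx hS') p S hpS
  have h1 := J_hit hε0 hε1 hN w hw o h h0 hpos hlap S k p S hpS (Finset.Subset.refl _)
  have h2 := (hp h (tot G w) htot hflow).1
  rw [h0] at h2
  calc J G ε hN (Dt p Y) k p S ≤ R * tot G w + ((g * Hh A0.card + ∑ v ∈ A0, T v) + R * tot G w) := by linarith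
    _ = _ := by rw [hg]; ring

end Pool.Agent.TH112.BW
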