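import Mathlib
import Pool.Agent.TH112.BW.Val

/-!
Depth first traversal of a family of clusters with interrupts.
-/

set_option autoImplicit false
set_option linter.unusedSectionVars false

namespace Pool.Agent.TH112.BW

open Finset

variable {V : Type} [Fintype V] [DecidableEq V] {G : SimpleGraph V} [DecidableRel G.Adj]
variable {ε : ℝ} (hε0 : 0 ≤ ε) (hε1 : ε ≤ 1) (hN : ∀ x, (G.neighborFinset x).Nonempty)

open Classical in
/-- the vertices which belong to the cluster of `u` or are adjacent to it, without `u` -/
noncomputable def nb (G : SimpleGraph V) [DecidableRel G.Adj] (cl : V → V) (u : V) : Finset V :=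
  (Finset.univ.filter (fun x => cl x = u ∨ ∃ y, G.Adj x y ∧ cl y = u)).erase u

include hε0 hε1 in
theorem J_dfs (hG : G.Connected) (cl : V → V) (hcl : ∀ x, cl (cl x) = cl x) (w : V → V → ℝ)
    (hw : ∀ u, cl u = u → Adm G ε (w u)) (R : ℝ) (hR : 0 ≤ R)
    (hRes : ∀ u x, cl u = u → (cl x = u ∨ ∃ y, G.Adj x y ∧ cl y = u) → Res G (w u) x u R)
    (K : V → ℝ) (hK0 : ∀ u, 0 ≤ K u)
    (hK : ∀ u, cl u = u → tot G (w u) * R * (Hh (nb G cl u).card + 2) ≤ K u)
    (v0 : V) (k : ℕ) (S : Finset V) (hS : v0 ∈ S) :
    J G ε hN (Dt v0 Finset.univ) k v0 S ≤ ∑ u, K u := by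
  classical
  set r : V → ℕ := fun x => G.dist v0 x with hr
  -- ports
  have hpt : ∀ u, ∃ p, cl u = u → (cl p = u ∧ ∀ x, cl x = u → r p ≤ r x) := by
    intro u
    by_cases hu : cl u = u
    · obtain ⟨p, hp, hpm⟩ := Finset.exists_min_image (Finset.univ.filter (fun x => cl x = u)) r
        ⟨u, by simp [hu]⟩
      exact ⟨p, fun _ => ⟨(Finset.mem_filter.mp hp).2, fun x hx => hpm x (by simp [hx])⟩⟩
    · exact ⟨u, fun h => absurd h hu⟩
  choose pt hpt using hpt
  have hptv0 : pt (cl v0) = v0 := by
    have h1 := (hpt (cl v0) (hcl v0)).2 v0 rfl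
    have h2 : r v0 = 0 := by simp [hr]
    rw [h2] at h1
    have h3 : G.dist v0 (pt (cl v0)) = 0 := Nat.le_zero.mp h1
    exact ((hG.dist_eq_zero_iff).mp h3).symm
  -- parents
  have hpar : ∀ u, ∃ a, cl u = u → u ≠ cl v0 → (cl a = a ∧ (∃ z, G.Adj (pt u) z ∧ cl z = a) ∧
      r (pt a) < r (pt u)) := by
    intro u
    by_cases hu : cl u = u ∧ u ≠ cl v0
    · obtain ⟨hu1, hu2⟩ := hu
      have hne : v0 ≠ pt u := by
        intro h
        apply hu2
        rw [h]
        exact (hpt u hu1).1.symm
      obtain ⟨z, hz1, hz2⟩ : ∃ z, G.Adj (pt u) z ∧ r z < r (pt u) := by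
        obtain ⟨p, hp⟩ := hG.exists_walk_length_eq_dist (pt u) v0
        cases p with
        | nil => exact absurd rfl hne
        | @cons _ z _ hadj p' =>
          refine ⟨z, hadj, ?_⟩
          have h1 : G.dist z v0 ≤ p'.length := SimpleGraph.dist_le p'
          rw [SimpleGraph.Walk.length_cons] at hp
          have h2 : r z = G.dist z v0 := SimpleGraph.dist_comm
          have h3 : r (pt u) = G.dist (pt u) v0 := SimpleGraph.dist_comm
          omega
      refine ⟨cl z, fun _ _ => ⟨hcl z, ⟨z, hz1, rfl⟩, ?_⟩⟩
      exact lt_of_le_of_lt ((hpt (cl z) (hcl z)).2 z rfl) hz2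
    · exact ⟨u, fun h1 h2 => absurd ⟨h1, h2⟩ hu⟩
  choose par hpar using hpar
  set st : V → V → Prop := fun a b => cl a = a ∧ a ≠ cl v0 ∧ par a = b with hst
  have huniq : Relator.RightUnique st := by
    intro a b c hab hac
    rw [← hab.2.2, ← hac.2.2]
  have hrank : ∀ a b, Relation.ReflTransGen st a b → r (pt b) ≤ r (pt a) := by
    intro a b hab
    induction hab with
    | refl => exact le_refl _
    | tail _ h ih =>
      have := (hpar _ h.1 h.2.1).2.2
      rw [h.2.2] at this
      omega
  set Desc : V → Finset V := fun u => Finset.univ.filter (fun a => cl a = a ∧ Relation.ReflTransGen st a u)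
    with hDesc
  have hmemD : ∀ a u, a ∈ Desc u ↔ cl a = a ∧ Relation.ReflTransGen st a u := by
    intro a u; simp [hDesc]
  set CovD : V → Finset V := fun u => Finset.univ.filter (fun x => cl x ∈ Desc u) with hCovD
  have hmemC : ∀ x u, x ∈ CovD u ↔ cl x ∈ Desc u := by
    intro a u; simp [hCovD]
  -- children
  have hchild : ∀ u c, st c u → cl u = u → (Desc c ⊆ Desc u ∧ u ∉ Desc c ∧ c ≠ u) := by
    intro u c hc hu
    have hlt : r (pt u) < r (pt c) := by
      have := (hpar c hc.1 hc.2.1).2.2
      rwa [hc.2.2] at this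
    refine ⟨?_, ?_, ?_⟩
    · intro a ha
      rw [hmemD] at ha ⊢
      exact ⟨ha.1, ha.2.tail hc⟩
    · intro hcon
      have := hrank u c ((hmemD _ _).mp hcon).2
      omega
    · intro hcu
      rw [hcu] at hlt
      omega
  have hdisj : ∀ u c1 c2 a, st c1 u → st c2 u → cl u = u → a ∈ Desc c1 → a ∈ Desc c2 → c1 = c2 := by
    intro u c1 c2 a h1 h2 hu ha1 ha2
    rw [hmemD] at ha1 ha2
    have hlt1 : r (pt u) < r (pt c1) := by
      have := (hpar c1 h1.1 h1.2.1).2.2
      rwa [h1.2.2] at this
    have hlt2 : r (pt u) < r (pt c2) := by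
      have := (hpar c2 h2.1 h2.2.1).2.2
      rwa [h2.2.2] at this
    rcases Relation.ReflTransGen.total_of_right_unique huniq ha1.2 ha2.2 with h | h
    · rcases Relation.ReflTransGen.cases_head h with h' | ⟨b, hb, hbc⟩
      · exact h'
      · have hbu : b = u := by rw [← hb.2.2, h1.2.2]
        rw [hbu] at hbc
        have := hrank _ _ hbc
        omega
    · rcases Relation.ReflTransGen.cases_head h with h' | ⟨b, hb, hbc⟩
      · exact h'.symm
      · have hbu : b = u := by rw [← hb.2.2, h2.2.2]
        rw [hbu] at hbc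
        have := hrank _ _ hbc
        omega
  -- main claim
  have main : ∀ n : ℕ, ∀ u, cl u = u → (Desc u).card ≤ n → ∀ k S, pt u ∈ S →
      J G ε hN (Dt (pt u) (S ∪ CovD u)) k (pt u) S ≤ ∑ a ∈ Desc u, K a := by
    intro n
    induction n with
    | zero =>
      intro u hu hcard
      exfalso
      have : u ∈ Desc u := (hmemD _ _).mpr ⟨hu, Relation.ReflTransGen.refl⟩
      have := Finset.card_pos.mpr ⟨u, this⟩
      omega
    | succ n ih =>
      intro u hu hcard k S hS
      have huD : u ∈ Desc u := (hmemD _ _).mpr ⟨hu, Relation.ReflTransGen.refl⟩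
      set isp : V → Prop := fun v => st (cl v) u ∧ pt (cl v) = v with hisp
      set T : V → ℝ := fun v => if isp v then ∑ a ∈ Desc (cl v), K a else 0 with hT
      set Cov : V → Finset V := fun v => if isp v then CovD (cl v) else ∅ with hCov
      have hT0 : ∀ v ∈ nb G cl u, 0 ≤ T v := by
        intro v _
        simp only [hT]
        split_ifs
        · exact Finset.sum_nonneg fun a _ => hK0 a
        · exact le_refl _
      have hsub : ∀ v ∈ nb G cl u, ∀ k S, v ∈ S → J G ε hN (Dt v (S ∪ Cov v)) k v S ≤ T v := by
        intro v _ k S hv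
        by_cases hp : isp v
        · have e1 : T v = ∑ a ∈ Desc (cl v), K a := by simp only [hT]; rw [if_pos hp]
          have e2 : Cov v = CovD (cl v) := by simp only [hCov]; rw [if_pos hp]
          rw [e1, e2]
          have hc := hchild u (cl v) hp.1 hu
          have hlt : (Desc (cl v)).card < (Desc u).card :=
            Finset.card_lt_card ⟨hc.1, fun h => hc.2.1 (h huD)⟩
          have := ih (cl v) (hcl v) (by omega) k S (by rw [hp.2]; exact hv)
          rw [hp.2] at this
          exact this
        · have e1 : T v = 0 := by simp only [hT]; rw [if_neg hp]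
          have e2 : Cov v = ∅ := by simp only [hCov]; rw [if_neg hp]
          rw [e1, e2]
          cases k with
          | zero => exact le_refl _
          | succ k => rw [J_succ_pos hN _ k v S ⟨rfl, by simp⟩]
      have hmode := J_mode hε0 hε1 hN hG (w u) (hw u hu) u (pt u) R hR
        (hRes u (pt u) hu (Or.inl (hpt u hu).1)) (nb G cl u) (Finset.notMem_erase _ _)
        (fun v hv => hRes u v hu (by
          have := Finset.mem_of_mem_erase hv
          exact (Finset.mem_filter.mp this).2))
        T hT0 Cov hsub k S hS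
      have hsubset : S ∪ CovD u ⊆ insert u S ∪ nb G cl u ∪ (nb G cl u).biUnion Cov := by
        intro x hx
        rw [Finset.mem_union] at hx
        rcases hx with hx | hx
        · exact Finset.mem_union_left _ (Finset.mem_union_left _ (Finset.mem_insert_of_mem hx))
        · rw [hmemC, hmemD] at hx
          by_cases hxu : cl x = u
          · refine Finset.mem_union_left _ ?_
            by_cases hxu' : x = u
            · rw [hxu']; exact Finset.mem_union_left _ (Finset.mem_insert_self _ _)
            · refine Finset.mem_union_right _ ?_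
              unfold nb
              rw [Finset.mem_erase, Finset.mem_filter]
              exact ⟨hxu', Finset.mem_univ _, Or.inl hxu⟩
          · rcases Relation.ReflTransGen.cases_tail hx.2 with h' | ⟨c, hc1, hc2⟩
            · exact absurd h'.symm hxu
            · have hcc := hchild u c hc2 hu
              obtain ⟨-, ⟨z, hz1, hz2⟩, hlt⟩ := hpar c hc2.1 hc2.2.1
              have hptc := (hpt c hc2.1).1
              have hmem : pt c ∈ nb G cl u := by
                unfold nb
                rw [Finset.mem_erase, Finset.mem_filter]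
                refine ⟨?_, Finset.mem_univ _, Or.inr ⟨z, hz1, ?_⟩⟩
                · intro h
                  rw [h] at hptc
                  exact hcc.2.2 (by rw [← hptc, hu])
                · rw [hz2, hc2.2.2]
              refine Finset.mem_union_right _ (Finset.mem_biUnion.mpr ⟨pt c, hmem, ?_⟩)
              have hispc : isp (pt c) := by
                refine ⟨?_, ?_⟩
                · rw [hptc]; exact hc2
                · rw [hptc]
              simp only [hCov]
              rw [if_pos hispc, hmemC, hptc, hmemD]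
              exact ⟨hx.1, hc1⟩
      have hanti := J_anti hε0 hε1 hN (Dt (pt u) (insert u S ∪ nb G cl u ∪ (nb G cl u).biUnion Cov))
        (Dt (pt u) (S ∪ CovD u)) (fun x S' hx => ⟨hx.1, hsubset.trans hx.2⟩) k (pt u) S
      have hsum : ∑ v ∈ nb G cl u, T v ≤ ∑ a ∈ (Desc u).erase u, K a := by
        have e1 : ∑ v ∈ nb G cl u, T v = ∑ v ∈ (nb G cl u).filter isp, ∑ a ∈ Desc (cl v), K a := by
          rw [Finset.sum_filter]
        rw [e1]
        have hpd : (((nb G cl u).filter isp : Finset V) : Set V).PairwiseDisjoint (fun v => Desc (cl v)) := by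
          intro v1 hv1 v2 hv2 hne
          rw [Function.onFun, Finset.disjoint_left]
          intro a ha1 ha2
          apply hne
          have h1 := (Finset.mem_filter.mp hv1).2
          have h2 := (Finset.mem_filter.mp hv2).2
          have := hdisj u (cl v1) (cl v2) a h1.1 h2.1 hu ha1 ha2
          rw [← h1.2, ← h2.2, this]
        rw [← Finset.sum_biUnion hpd]
        refine Finset.sum_le_sum_of_subset_of_nonneg ?_ fun a _ _ => hK0 a
        intro a ha
        rw [Finset.mem_biUnion] at ha
        obtain ⟨v, hv, ha⟩ := ha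
        have h1 := (Finset.mem_filter.mp hv).2
        have hc := hchild u (cl v) h1.1 hu
        refine Finset.mem_erase.mpr ⟨?_, hc.1 ha⟩
        intro h
        rw [h] at ha
        exact hc.2.1 ha
      have hfin : ∑ a ∈ Desc u, K a = K u + ∑ a ∈ (Desc u).erase u, K a := by
        rw [Finset.add_sum_erase _ _ huD]
      rw [hfin]
      have := hK u hu
      linarith
  -- everything is below the root
  have hall : ∀ n : ℕ, ∀ a, cl a = a → r (pt a) ≤ n → Relation.ReflTransGen st a (cl v0) := by
    intro n
    induction n with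
    | zero =>
      intro a ha hra
      by_cases hau : a = cl v0
      · rw [← hau]
      · have := (hpar a ha hau).2.2
        omega
    | succ n ih =>
      intro a ha hra
      by_cases hau : a = cl v0
      · rw [← hau]
      · obtain ⟨h1, -, h3⟩ := hpar a ha hau
        exact Relation.ReflTransGen.head ⟨ha, hau, rfl⟩ (ih (par a) h1 (by omega))
  have hfinal := main _ (cl v0) (hcl v0) (le_refl _) k S (by rw [hptv0]; exact hS)
  rw [hptv0] at hfinal
  have hcov : S ∪ CovD (cl v0) = Finset.univ := by
    rw [Finset.eq_univ_iff_forall]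
    intro x
    refine Finset.mem_union_right _ ?_
    rw [hmemC, hmemD]
    exact ⟨hcl x, hall _ (cl x) (hcl x) (le_refl _)⟩
  rw [hcov] at hfinal
  exact hfinal.trans (Finset.sum_le_sum_of_subset_of_nonneg (Finset.subset_univ _) fun a _ _ => hK0 a)

end Pool.Agent.TH112.BW
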