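import Mathlib
import Pool.Agent.TH112.BW.Dfs

/-!
From value iteration to a stationary control strategy and its expected cover time.
-/

set_option autoImplicit false
set_option linter.unusedSectionVars false

namespace Pool.Agent.TH112.BW

open Finset

variable {V : Type} [Fintype V] [DecidableEq V] {G : SimpleGraph V} [DecidableRel G.Adj]
variable {ε : ℝ} (hε0 : 0 ≤ ε) (hε1 : ε ≤ 1) (hN : ∀ x, (G.neighborFinset x).Nonempty)

/-- law of (position, visited set) at time `t` -/
noncomputable def mu (G : SimpleGraph V) [DecidableRel G.Adj] (ε : ℝ) (v₀ : V) (f : V → Finset V → V) (t : ℕ) :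
    V × Finset V → ENNReal :=
  (Nat.rec (motive := fun _ => V × Finset V → ENNReal)
              (fun q : V × Finset V => if q = (v₀, ({v₀} : Finset V)) then (1 : ENNReal) else 0)
              (fun (_ : ℕ) (μ : V × Finset V → ENNReal) (q : V × Finset V) =>
                ∑ r : V × Finset V, μ r *
                  (if G.Adj r.1 q.1 ∧ q.2 = insert q.1 r.2 then
                    ENNReal.ofReal ((1 - ε) / (G.degree r.1 : ℝ) +
                      (if q.1 = f r.1 r.2 then ε else 0))
                  else 0))
              t)

theorem mu_zero (v₀ : V) (f : V → Finset V → V) (q : V × Finset V) :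
    mu G ε v₀ f 0 q = if q = (v₀, ({v₀} : Finset V)) then (1 : ENNReal) else 0 := rfl

theorem mu_succ (v₀ : V) (f : V → Finset V → V) (t : ℕ) (q : V × Finset V) :
    mu G ε v₀ f (t+1) q = ∑ r : V × Finset V, mu G ε v₀ f t r *
                  (if G.Adj r.1 q.1 ∧ q.2 = insert q.1 r.2 then
                    ENNReal.ofReal ((1 - ε) / (G.degree r.1 : ℝ) +
                      (if q.1 = f r.1 r.2 then ε else 0))
                  else 0) := rfl

theorem cost_bound (v₀ : V) (f : V → Finset V → V) (W : V × Finset V → ENNReal)
    (hW : ∀ r : V × Finset V, (if r.2 = Finset.univ then (0 : ENNReal) else 1)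
      + ∑ q : V × Finset V, (if G.Adj r.1 q.1 ∧ q.2 = insert q.1 r.2 then
                    ENNReal.ofReal ((1 - ε) / (G.degree r.1 : ℝ) +
                      (if q.1 = f r.1 r.2 then ε else 0))
                  else 0) * W q ≤ W r) :
    ∑' t : ℕ, ∑ p : V × Finset V, (if p.2 = Finset.univ then (0 : ENNReal) else mu G ε v₀ f t p)
      ≤ W (v₀, {v₀}) := by
  have key : ∀ n : ℕ, ∑ t ∈ Finset.range n, ∑ p : V × Finset V,
      (if p.2 = Finset.univ then (0 : ENNReal) else mu G ε v₀ f t p)
      + ∑ p : V × Finset V, mu G ε v₀ f n p * W p ≤ W (v₀, {v₀}) := by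
    intro n
    induction n with
    | zero =>
      rw [Finset.range_zero, Finset.sum_empty, zero_add]
      apply le_of_eq
      rw [Finset.sum_eq_single (v₀, ({v₀} : Finset V))]
      · rw [mu_zero, if_pos rfl, one_mul]
      · intro b _ hb
        rw [mu_zero, if_neg hb, zero_mul]
      · intro h
        exact absurd (Finset.mem_univ _) h
    | succ n ih =>
      refine le_trans ?_ ih
      rw [Finset.sum_range_succ, add_assoc]
      refine add_le_add (le_refl _) ?_
      have h1 : ∑ p : V × Finset V, mu G ε v₀ f (n+1) p * W p
          = ∑ r : V × Finset V, mu G ε v₀ f n r * ∑ q : V × Finset V,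
              (if G.Adj r.1 q.1 ∧ q.2 = insert q.1 r.2 then
                    ENNReal.ofReal ((1 - ε) / (G.degree r.1 : ℝ) +
                      (if q.1 = f r.1 r.2 then ε else 0))
                  else 0) * W q := by
        have : ∀ p : V × Finset V, mu G ε v₀ f (n+1) p * W p = ∑ r : V × Finset V, mu G ε v₀ f n r *
              ((if G.Adj r.1 p.1 ∧ p.2 = insert p.1 r.2 then
                    ENNReal.ofReal ((1 - ε) / (G.degree r.1 : ℝ) +
                      (if p.1 = f r.1 r.2 then ε else 0))
                  else 0) * W p) := by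
          intro p
          rw [mu_succ, Finset.sum_mul]
          exact Finset.sum_congr rfl fun r _ => by rw [mul_assoc]
        rw [Finset.sum_congr rfl fun p _ => this p, Finset.sum_comm]
        refine Finset.sum_congr rfl fun r _ => ?_
        rw [Finset.mul_sum]
      rw [h1, ← Finset.sum_add_distrib]
      refine Finset.sum_le_sum fun r _ => ?_
      calc (if r.2 = Finset.univ then (0 : ENNReal) else mu G ε v₀ f n r)
            + mu G ε v₀ f n r * ∑ q : V × Finset V,
              (if G.Adj r.1 q.1 ∧ q.2 = insert q.1 r.2 then
                    ENNReal.ofReal ((1 - ε) / (G.degree r.1 : ℝ) +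
                      (if q.1 = f r.1 r.2 then ε else 0))
                  else 0) * W q
          = mu G ε v₀ f n r * ((if r.2 = Finset.univ then (0 : ENNReal) else 1) + ∑ q : V × Finset V,
              (if G.Adj r.1 q.1 ∧ q.2 = insert q.1 r.2 then
                    ENNReal.ofReal ((1 - ε) / (G.degree r.1 : ℝ) +
                      (if q.1 = f r.1 r.2 then ε else 0))
                  else 0) * W q) := by
            rw [mul_add]
            congr 1
            split_ifs <;> simp
        _ ≤ mu G ε v₀ f n r * W r := mul_le_mul_right (hW r) _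
  refine ENNReal.tsum_le_of_sum_range_le fun n => ?_
  exact le_trans le_self_add (key n)

include hε0 hε1 hN in
theorem exists_strategy (v₀ : V) (T : ℝ)
    (hT : ∀ k, J G ε hN (fun _ S => S = Finset.univ) k v₀ {v₀} ≤ T) :
    ∃ f : V → Finset V → V, (∀ (u : V) (S : Finset V), G.Adj u (f u S)) ∧
      ∑' t : ℕ, ∑ p : V × Finset V, (if p.2 = Finset.univ then (0 : ENNReal) else mu G ε v₀ f t p)
        ≤ ENNReal.ofReal T := by
  classical
  set D : V → Finset V → Prop := fun _ S => S = Finset.univ with hD
  set W : V × Finset V → ENNReal := fun p => ⨆ k, ENNReal.ofReal (J G ε hN D k p.1 p.2) with hWdef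
  have hmin : ∀ (x : V) (S : Finset V), ∃ y, G.Adj x y ∧ ∀ z, G.Adj x z → W (y, insert y S) ≤ W (z, insert z S) := by
    intro x S
    obtain ⟨y, hy, hym⟩ := Finset.exists_min_image (G.neighborFinset x) (fun y => W (y, insert y S)) (hN x)
    exact ⟨y, by simpa using hy, fun z hz => hym z (by simpa using hz)⟩
  choose f hf1 hf2 using hmin
  refine ⟨f, hf1, ?_⟩
  refine (cost_bound v₀ f W ?_).trans ?_
  · rintro ⟨x, S⟩
    by_cases hS : S = Finset.univ
    · have hWz : ∀ y, W (y, Finset.univ) = 0 := by
        intro y
        simp only [hWdef]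
        rw [ENNReal.iSup_eq_zero]
        intro k
        cases k with
        | zero => rw [J_zero]; simp
        | succ k => rw [J_succ_pos hN D k y _ rfl]; simp
      simp only [hS, if_true, zero_add]
      rw [hWz x]
      rw [Finset.sum_eq_zero]
      rintro ⟨y, S'⟩ _
      by_cases hc : G.Adj x y ∧ S' = insert y Finset.univ
      · have : S' = Finset.univ := by rw [hc.2]; simp
        rw [this, hWz y, mul_zero]
      · simp only [if_neg hc, zero_mul]
    · simp only [if_neg hS]
      have hdeg := deg_pos hN x
      have ha0 : 0 ≤ (1 - ε) / (G.degree x : ℝ) := div_nonneg (by linarith) hdeg.le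
      -- evaluate the sum
      have h1 : ∑ q : V × Finset V, (if G.Adj x q.1 ∧ q.2 = insert q.1 S then
                    ENNReal.ofReal ((1 - ε) / (G.degree x : ℝ) +
                      (if q.1 = f x S then ε else 0))
                  else 0) * W q
          = ∑ y ∈ G.neighborFinset x, (ENNReal.ofReal ((1 - ε) / (G.degree x : ℝ) +
                      (if y = f x S then ε else 0))) * W (y, insert y S) := by
        rw [Fintype.sum_prod_type]
        rw [← Finset.sum_filter_add_sum_filter_not Finset.univ (fun y => G.Adj x y)]
        have e1 : ∑ y ∈ Finset.univ.filter (fun y => ¬ G.Adj x y), ∑ S' : Finset V,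
            (if G.Adj x (y, S').1 ∧ (y, S').2 = insert (y, S').1 S then
                    ENNReal.ofReal ((1 - ε) / (G.degree x : ℝ) +
                      (if (y, S').1 = f x S then ε else 0))
                  else 0) * W (y, S') = 0 := by
          refine Finset.sum_eq_zero fun y hy => Finset.sum_eq_zero fun S' _ => ?_
          have := (Finset.mem_filter.mp hy).2
          simp only
          rw [if_neg (fun h => this h.1), zero_mul]
        rw [e1, add_zero]
        refine Finset.sum_congr ?_ fun y hy => ?_
        · ext y; simp
        · have hy' : G.Adj x y := by simpa using hy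
          rw [Finset.sum_eq_single (insert y S)]
          · rw [if_pos (show G.Adj x (y, insert y S).1 ∧ (y, insert y S).2 = insert (y, insert y S).1 S from
              ⟨hy', rfl⟩)]
          · intro S' _ hne
            simp only
            rw [if_neg (fun h => hne h.2), zero_mul]
          · intro h
            exact absurd (Finset.mem_univ _) h
      rw [h1]
      have h2 : ∑ y ∈ G.neighborFinset x, (ENNReal.ofReal ((1 - ε) / (G.degree x : ℝ) +
                      (if y = f x S then ε else 0))) * W (y, insert y S)
          = ENNReal.ofReal ((1 - ε) / (G.degree x : ℝ)) * ∑ y ∈ G.neighborFinset x, W (y, insert y S)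
            + ENNReal.ofReal ε * W (f x S, insert (f x S) S) := by
        have e1 : ∀ y ∈ G.neighborFinset x, (ENNReal.ofReal ((1 - ε) / (G.degree x : ℝ) +
                      (if y = f x S then ε else 0))) * W (y, insert y S)
            = ENNReal.ofReal ((1 - ε) / (G.degree x : ℝ)) * W (y, insert y S)
              + (if y = f x S then ENNReal.ofReal ε * W (y, insert y S) else 0) := by
          intro y _
          by_cases hy : y = f x S
          · rw [if_pos hy, if_pos hy, ENNReal.ofReal_add ha0 hε0, add_mul]
          · rw [if_neg hy, if_neg hy, add_zero, add_zero]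
        rw [Finset.sum_congr rfl e1, Finset.sum_add_distrib, ← Finset.mul_sum, Finset.sum_ite_eq']
        rw [if_pos (by simpa using hf1 x S)]
      rw [h2]
      -- supremum
      set u : ℕ → ENNReal := fun k => ENNReal.ofReal
        ((G.neighborFinset x).inf' (hN x) (fun y => J G ε hN D k y (insert y S))) with hu
      have humono : Monotone u := by
        intro k l hkl
        refine ENNReal.ofReal_le_ofReal ((Finset.le_inf'_iff _ _).mpr fun y hy =>
          (Finset.inf'_le _ hy).trans (J_mono hε0 hε1 hN D hkl y _))
      have hfu : W (f x S, insert (f x S) S) ≤ ⨆ k, u k := by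
        by_contra hcon
        rw [not_le] at hcon
        have hlt : ∀ y, ∃ k, G.Adj x y → (⨆ k, u k) < ENNReal.ofReal (J G ε hN D k y (insert y S)) := by
          intro y
          by_cases hy : G.Adj x y
          · have h3 : (⨆ k, u k) < W (y, insert y S) := lt_of_lt_of_le hcon (hf2 x S y hy)
            simp only [hWdef] at h3
            obtain ⟨k, hk⟩ := lt_iSup_iff.mp h3
            exact ⟨k, fun _ => hk⟩
          · exact ⟨0, fun h => absurd h hy⟩
        choose kk hkk using hlt
        set K := Finset.univ.sup kk with hK
        obtain ⟨y, hy, hye⟩ := Finset.exists_mem_eq_inf' (hN x) (fun y => J G ε hN D K y (insert y S))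
        have h4 : u K = ENNReal.ofReal (J G ε hN D K y (insert y S)) := by
          simp only [hu]; rw [hye]
        have h5 := hkk y (by simpa using hy)
        have h6 : ENNReal.ofReal (J G ε hN D (kk y) y (insert y S))
            ≤ ENNReal.ofReal (J G ε hN D K y (insert y S)) :=
          ENNReal.ofReal_le_ofReal (J_mono hε0 hε1 hN D (Finset.le_sup (Finset.mem_univ y)) y _)
        have h7 : u K ≤ ⨆ k, u k := le_iSup u K
        rw [h4] at h7
        exact absurd (lt_of_lt_of_le h5 h6) (not_lt.mpr h7)
      have hsumsup : ∑ y ∈ G.neighborFinset x, W (y, insert y S)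
          = ⨆ k, ∑ y ∈ G.neighborFinset x, ENNReal.ofReal (J G ε hN D k y (insert y S)) := by
        simp only [hWdef]
        exact ENNReal.finsetSum_iSup_of_monotone (fun y k l hkl =>
          ENNReal.ofReal_le_ofReal (J_mono hε0 hε1 hN D hkl y _))
      have hJexp : ∀ k, 1 + (ENNReal.ofReal ((1 - ε) / (G.degree x : ℝ))
            * ∑ y ∈ G.neighborFinset x, ENNReal.ofReal (J G ε hN D k y (insert y S))
            + ENNReal.ofReal ε * u k) ≤ W (x, S) := by
        intro k
        have e1 : ENNReal.ofReal (J G ε hN D (k+1) x S) ≤ W (x, S) := by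
          simp only [hWdef]
          exact le_iSup (fun k => ENNReal.ofReal (J G ε hN D k x S)) (k+1)
        refine le_trans (le_of_eq ?_) e1
        rw [J_succ_neg hN D k x S hS]
        have hJn : ∀ y, 0 ≤ J G ε hN D k y (insert y S) := fun y => J_nonneg hε0 hε1 hN D k y _
        have hin : 0 ≤ (G.neighborFinset x).inf' (hN x) (fun y => J G ε hN D k y (insert y S)) :=
          (Finset.le_inf'_iff _ _).mpr fun y _ => hJn y
        have hsn : 0 ≤ ∑ y ∈ G.neighborFinset x, J G ε hN D k y (insert y S) :=
          Finset.sum_nonneg fun y _ => hJn y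
        rw [ENNReal.ofReal_add (by positivity) (mul_nonneg hε0 hin),
          ENNReal.ofReal_add zero_le_one (mul_nonneg ha0 hsn), ENNReal.ofReal_one,
          ENNReal.ofReal_mul ha0, ENNReal.ofReal_mul hε0, ENNReal.ofReal_sum_of_nonneg fun y _ => hJn y,
          add_assoc]
      rw [hsumsup]
      calc 1 + (ENNReal.ofReal ((1 - ε) / (G.degree x : ℝ))
            * (⨆ k, ∑ y ∈ G.neighborFinset x, ENNReal.ofReal (J G ε hN D k y (insert y S)))
            + ENNReal.ofReal ε * W (f x S, insert (f x S) S))
          ≤ 1 + (ENNReal.ofReal ((1 - ε) / (G.degree x : ℝ))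
            * (⨆ k, ∑ y ∈ G.neighborFinset x, ENNReal.ofReal (J G ε hN D k y (insert y S)))
            + ENNReal.ofReal ε * (⨆ k, u k)) := by gcongr
        _ = ⨆ k, (1 + (ENNReal.ofReal ((1 - ε) / (G.degree x : ℝ))
            * ∑ y ∈ G.neighborFinset x, ENNReal.ofReal (J G ε hN D k y (insert y S))
            + ENNReal.ofReal ε * u k)) := by
            rw [ENNReal.mul_iSup, ENNReal.mul_iSup, ENNReal.iSup_add_iSup_of_monotone, ENNReal.add_iSup]
            · intro k l hkl
              exact mul_le_mul_right (Finset.sum_le_sum fun y _ =>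
                ENNReal.ofReal_le_ofReal (J_mono hε0 hε1 hN D hkl y _)) _
            · intro k l hkl
              exact mul_le_mul_right (humono hkl) _
        _ ≤ W (x, S) := iSup_le hJexp
  · simp only [hWdef]
    exact iSup_le fun k => ENNReal.ofReal_le_ofReal (hT k)

end Pool.Agent.TH112.BW
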