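import Mathlib

/-!
Random multiplicative shifts: for every positive kernel there are factors `m u ∈ [1, n^2]` such that the sum of
`m u * k x u` over `u` is, on average over `x`, at most four times its largest term.
-/

set_option autoImplicit false
set_option linter.unusedSectionVars false

namespace Pool.Agent.TH112.BW

open Finset

/-- the factor of rank `i` -/
noncomputable def mf (n i : ℕ) : ℝ := ((n : ℝ) / ((i : ℝ) + 1)) ^ 2

theorem sum_inv_sq (a n : ℕ) (han : a < n) :
    ∑ i ∈ Finset.Ico a n, (((i : ℝ) + 1) ^ 2)⁻¹ ≤ (((a : ℝ) + 1) ^ 2)⁻¹ + ((a : ℝ) + 1)⁻¹ := by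
  have key : ∀ m, a < m → ∑ i ∈ Finset.Ico a m, (((i : ℝ) + 1) ^ 2)⁻¹
      ≤ (((a : ℝ) + 1) ^ 2)⁻¹ + ((a : ℝ) + 1)⁻¹ - ((m : ℝ))⁻¹ := by
    intro m hm
    induction m with
    | zero => omega
    | succ m ih =>
      by_cases hma : a < m
      · rw [Finset.sum_Ico_succ_top hma.le]
        have := ih hma
        have hm0 : (0 : ℝ) < m := by exact_mod_cast (by omega : 0 < m)
        have h2 : (((m : ℝ) + 1) ^ 2)⁻¹ ≤ (m : ℝ)⁻¹ - ((m : ℝ) + 1)⁻¹ := by
          have e : (m : ℝ)⁻¹ - ((m : ℝ) + 1)⁻¹ = ((m : ℝ) * ((m : ℝ) + 1))⁻¹ := by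
            field_simp; ring
          rw [e]
          apply inv_anti₀ (by positivity)
          nlinarith
        push_cast
        linarith
      · have hma' : m = a := by omega
        subst hma'
        rw [Finset.sum_Ico_succ_top (le_refl _), Finset.Ico_self, Finset.sum_empty, zero_add]
        push_cast
        linarith
  have := key n han
  have h0 : (0 : ℝ) ≤ (n : ℝ)⁻¹ := by positivity
  linarith

theorem count_bound (n : ℕ) (c : ℝ) (hc : 0 < c) :
    ∑ i ∈ Finset.range n, min 1 (mf n i / c)
      ≤ 2 * ((Finset.range n).filter (fun i => c < mf n i)).card + 2 := by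
  rcases Nat.eq_zero_or_pos n with hn | hn
  · subst hn; simp
  have hnR : (0 : ℝ) < n := by exact_mod_cast hn
  set s : ℝ := n / Real.sqrt c with hs
  have hsq : 0 < Real.sqrt c := Real.sqrt_pos.mpr hc
  have hs0 : 0 < s := div_pos hnR hsq
  have hm : ∀ i : ℕ, mf n i / c = (s / ((i : ℝ) + 1)) ^ 2 := by
    intro i
    unfold mf
    rw [hs, div_pow, div_pow, div_pow, Real.sq_sqrt hc.le]
    field_simp
  have hlt : ∀ i : ℕ, c < mf n i ↔ i < ⌈s⌉₊ - 1 := by
    intro i
    have h1 : c < mf n i ↔ 1 < mf n i / c := by rw [lt_div_iff₀ hc, one_mul]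
    rw [h1, hm]
    have h2 : (1 : ℝ) < (s / ((i : ℝ) + 1)) ^ 2 ↔ (i : ℝ) + 1 < s := by
      rw [one_lt_sq_iff₀ (by positivity), lt_div_iff₀ (by positivity), one_mul]
    rw [h2]
    have h3 : (i : ℝ) + 1 < s ↔ i + 1 < ⌈s⌉₊ := by
      rw [Nat.lt_ceil]; push_cast; exact Iff.rfl
    rw [h3]
    omega
  set a := ⌈s⌉₊ - 1 with ha
  have hsa : s ≤ (a : ℝ) + 1 := by
    have h1 : s ≤ (⌈s⌉₊ : ℝ) := Nat.le_ceil s
    have h2 : (⌈s⌉₊ : ℝ) ≤ (a : ℝ) + 1 := by
      have : ⌈s⌉₊ ≤ a + 1 := by omega
      exact_mod_cast this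
    linarith
  have hfilt : (Finset.range n).filter (fun i => c < mf n i) = Finset.range (min n a) := by
    ext i
    rw [Finset.mem_filter, Finset.mem_range, Finset.mem_range, hlt]
    omega
  rw [hfilt, Finset.card_range]
  by_cases han : a < n
  · rw [min_eq_right han.le, Finset.range_eq_Ico, ← Finset.sum_Ico_consecutive _ (Nat.zero_le a) han.le]
    have h1 : ∑ i ∈ Finset.Ico 0 a, min 1 (mf n i / c) ≤ a := by
      calc _ ≤ ∑ i ∈ Finset.Ico 0 a, (1 : ℝ) := Finset.sum_le_sum fun i _ => min_le_left _ _
        _ = a := by simp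
    have h2 : ∑ i ∈ Finset.Ico a n, min 1 (mf n i / c) ≤ (a : ℝ) + 2 := by
      calc _ ≤ ∑ i ∈ Finset.Ico a n, ((a : ℝ) + 1) ^ 2 * (((i : ℝ) + 1) ^ 2)⁻¹ := by
            refine Finset.sum_le_sum fun i _ => (min_le_right _ _).trans ?_
            rw [hm, div_pow, div_eq_mul_inv]
            exact mul_le_mul_of_nonneg_right (pow_le_pow_left₀ hs0.le hsa 2) (by positivity)
        _ = ((a : ℝ) + 1) ^ 2 * ∑ i ∈ Finset.Ico a n, (((i : ℝ) + 1) ^ 2)⁻¹ := by rw [Finset.mul_sum]
        _ ≤ ((a : ℝ) + 1) ^ 2 * ((((a : ℝ) + 1) ^ 2)⁻¹ + ((a : ℝ) + 1)⁻¹) :=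
            mul_le_mul_of_nonneg_left (sum_inv_sq a n han) (by positivity)
        _ = (a : ℝ) + 2 := by
            field_simp
            ring
    linarith
  · rw [min_eq_left (not_lt.mp han)]
    calc ∑ i ∈ Finset.range n, min 1 (mf n i / c) ≤ ∑ i ∈ Finset.range n, (1 : ℝ) :=
          Finset.sum_le_sum fun i _ => min_le_left _ _
      _ = n := by simp
      _ ≤ 2 * n + 2 := by linarith

variable {V : Type} [Fintype V] [DecidableEq V]

theorem sum_update (n : ℕ) (u : V) (F : (V → Fin n) → ℝ) :
    ∑ ω : V → Fin n, ∑ i : Fin n, F (Function.update ω u i) = n * ∑ ω : V → Fin n, F ω := by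
  have e1 : ∑ ω : V → Fin n, ∑ i : Fin n, F (Function.update ω u i)
      = ∑ p : (V → Fin n) × Fin n, F (Function.update p.1 u p.2) := by
    rw [Fintype.sum_prod_type]
  have e2 : ∑ p : (V → Fin n) × Fin n, F (Function.update p.1 u p.2) = ∑ p : (V → Fin n) × Fin n, F p.1 := by
    refine Fintype.sum_equiv
      { toFun := fun p => (Function.update p.1 u p.2, p.1 u)
        invFun := fun p => (Function.update p.1 u p.2, p.1 u)
        left_inv := fun p => by simp
        right_inv := fun p => by simp } _ _ fun p => ?_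
    rfl
  have e3 : ∑ p : (V → Fin n) × Fin n, F p.1 = n * ∑ ω : V → Fin n, F ω := by
    rw [Fintype.sum_prod_type]
    simp only [Finset.sum_const, Finset.card_univ, Fintype.card_fin, nsmul_eq_mul]
    rw [Finset.mul_sum]
  rw [e1, e2, e3]

/-- the largest term -/
noncomputable def Fm [Nonempty V] (n : ℕ) (kk : V → V → ℝ) (ω : V → Fin n) (x : V) : ℝ :=
  (Finset.univ : Finset V).sup' Finset.univ_nonempty (fun u => mf n (ω u) * kk x u)

theorem mf_pos (n i : ℕ) (hn : 0 < n) : 0 < mf n i := by
  unfold mf
  have : (0 : ℝ) < n := by exact_mod_cast hn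
  positivity

open Classical in
theorem exists_shift [Nonempty V] (kk : V → V → ℝ) (hk : ∀ x u, 0 < kk x u) :
    ∃ ω : V → Fin (Fintype.card V), ∑ x, ∑ u, mf (Fintype.card V) (ω u) * kk x u
      / Fm (Fintype.card V) kk ω x ≤ 4 * Fintype.card V := by
  set n := Fintype.card V with hn
  have hnpos : 0 < n := Fintype.card_pos
  have hnR : (0 : ℝ) < n := by exact_mod_cast hnpos
  set win : (V → Fin n) → V → V → Prop := fun ω x u =>
    ∀ u', u' ≠ u → mf n (ω u') * kk x u' < mf n (ω u) * kk x u with hwin
  -- one pair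
  have hpair : ∀ x u, ∑ ω : V → Fin n, mf n (ω u) * kk x u / Fm n kk ω x
      ≤ 2 * ∑ ω : V → Fin n, (if win ω x u then (1 : ℝ) else 0)
        + 2 * (Fintype.card (V → Fin n) : ℝ) / n := by
    intro x u
    have hfix : ∀ ω : V → Fin n, ∑ i : Fin n, mf n ((Function.update ω u i) u) * kk x u
        / Fm n kk (Function.update ω u i) x
        ≤ 2 * ∑ i : Fin n, (if win (Function.update ω u i) x u then (1 : ℝ) else 0) + 2 := by
      intro ω
      set M : ℝ := (Finset.univ : Finset V).sup' Finset.univ_nonempty
        (fun u' => if u' = u then 0 else mf n (ω u') * kk x u') with hM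
      have hM0 : 0 ≤ M := by
        calc (0 : ℝ) = (fun u' => if u' = u then 0 else mf n (ω u') * kk x u') u := (if_pos rfl).symm
          _ ≤ M := Finset.le_sup' (fun u' => if u' = u then 0 else mf n (ω u') * kk x u') (Finset.mem_univ u)
      have hMle : ∀ i : Fin n, M ≤ Fm n kk (Function.update ω u i) x := by
        intro i
        rw [hM]
        refine Finset.sup'_le _ _ fun u' _ => ?_
        have h1 : mf n ((Function.update ω u i) u') * kk x u' ≤ Fm n kk (Function.update ω u i) x :=
          Finset.le_sup' (fun u' => mf n ((Function.update ω u i) u') * kk x u') (Finset.mem_univ u')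
        by_cases hu : u' = u
        · simp only [hu, if_true]
          rw [hu] at h1
          exact (mul_pos (mf_pos n _ hnpos) (hk x u)).le.trans h1
        · simp only [if_neg hu]
          rw [Function.update_of_ne hu] at h1
          exact h1
      have hself : ∀ i : Fin n, mf n i * kk x u ≤ Fm n kk (Function.update ω u i) x := by
        intro i
        have h1 : mf n ((Function.update ω u i) u) * kk x u ≤ Fm n kk (Function.update ω u i) x :=
          Finset.le_sup' (fun u' => mf n ((Function.update ω u i) u') * kk x u') (Finset.mem_univ u)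
        rwa [Function.update_self] at h1
      have hwinM : ∀ i : Fin n, M < mf n i * kk x u → win (Function.update ω u i) x u := by
        intro i hi u' hu'
        rw [Function.update_self, Function.update_of_ne hu']
        refine lt_of_le_of_lt ?_ hi
        calc mf n (ω u') * kk x u' = (fun u' => if u' = u then 0 else mf n (ω u') * kk x u') u' :=
              (if_neg hu').symm
          _ ≤ M := Finset.le_sup' (fun u' => if u' = u then 0 else mf n (ω u') * kk x u') (Finset.mem_univ u')
      have hFpos : ∀ i : Fin n, 0 < Fm n kk (Function.update ω u i) x := fun i =>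
        lt_of_lt_of_le (mul_pos (mf_pos n _ hnpos) (hk x u)) (hself i)
      rcases hM0.eq_or_lt with hMz | hMp
      · -- all win
        have h1 : ∀ i : Fin n, mf n ((Function.update ω u i) u) * kk x u
            / Fm n kk (Function.update ω u i) x ≤ (if win (Function.update ω u i) x u then (1 : ℝ) else 0) := by
          intro i
          rw [if_pos (hwinM i (by rw [← hMz]; exact mul_pos (mf_pos n _ hnpos) (hk x u))),
            Function.update_self, div_le_one (hFpos i)]
          exact hself i
        have h2 := Finset.sum_le_sum fun i (_ : i ∈ (Finset.univ : Finset (Fin n))) => h1 i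
        have h3 : 0 ≤ ∑ i : Fin n, (if win (Function.update ω u i) x u then (1 : ℝ) else 0) :=
          Finset.sum_nonneg fun i _ => by split_ifs <;> norm_num
        linarith
      · set c := M / kk x u with hc
        have hcp : 0 < c := div_pos hMp (hk x u)
        have h1 : ∀ i : Fin n, mf n ((Function.update ω u i) u) * kk x u
            / Fm n kk (Function.update ω u i) x ≤ min 1 (mf n i / c) := by
          intro i
          rw [Function.update_self]
          refine le_min ?_ ?_
          · rw [div_le_one (hFpos i)]; exact hself i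
          · rw [hc, div_div_eq_mul_div]
            exact div_le_div_of_nonneg_left (mul_pos (mf_pos n _ hnpos) (hk x u)).le hMp (hMle i)
        have h2 := Finset.sum_le_sum fun i (_ : i ∈ (Finset.univ : Finset (Fin n))) => h1 i
        have h3 : ∑ i : Fin n, min 1 (mf n i / c) = ∑ i ∈ Finset.range n, min 1 (mf n i / c) :=
          Fin.sum_univ_eq_sum_range (fun i => min 1 (mf n i / c)) n
        have h4 := count_bound n c hcp
        have h5 : (((Finset.range n).filter (fun i => c < mf n i)).card : ℝ)
            ≤ ∑ i : Fin n, (if win (Function.update ω u i) x u then (1 : ℝ) else 0) := by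
          have e1 : (((Finset.range n).filter (fun i => c < mf n i)).card : ℝ)
              = ∑ i ∈ Finset.range n, (if c < mf n i then (1 : ℝ) else 0) := by
            rw [Finset.sum_boole]
          rw [e1, ← Fin.sum_univ_eq_sum_range (fun i => if c < mf n i then (1 : ℝ) else 0) n]
          refine Finset.sum_le_sum fun i _ => ?_
          by_cases hi : c < mf n i
          · rw [if_pos hi, if_pos (hwinM i (by
              rw [hc, div_lt_iff₀ (hk x u)] at hi
              exact hi))]
          · rw [if_neg hi]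
            split_ifs <;> norm_num
        rw [h3] at h2
        linarith
    have h1 := Finset.sum_le_sum fun ω (_ : ω ∈ (Finset.univ : Finset (V → Fin n))) => hfix ω
    rw [sum_update n u (fun ω => mf n (ω u) * kk x u / Fm n kk ω x), Finset.sum_add_distrib,
      ← Finset.mul_sum, sum_update n u (fun ω => if win ω x u then (1 : ℝ) else 0)] at h1
    rw [Finset.sum_const, nsmul_eq_mul, Finset.card_univ] at h1
    have h2 : ∑ ω : V → Fin n, mf n (ω u) * kk x u / Fm n kk ω x
        = ((n : ℝ) * ∑ ω : V → Fin n, mf n (ω u) * kk x u / Fm n kk ω x) / n := by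
      rw [mul_div_cancel_left₀ _ hnR.ne']
    rw [h2]
    calc ((n : ℝ) * ∑ ω : V → Fin n, mf n (ω u) * kk x u / Fm n kk ω x) / n
        ≤ (2 * ((n : ℝ) * ∑ ω : V → Fin n, (if win ω x u then (1 : ℝ) else 0))
          + (Fintype.card (V → Fin n) : ℝ) * 2) / n := div_le_div_of_nonneg_right h1 hnR.le
      _ = _ := by field_simp
  -- one point
  have hpoint : ∀ x, ∑ ω : V → Fin n, ∑ u, mf n (ω u) * kk x u / Fm n kk ω x
      ≤ 4 * (Fintype.card (V → Fin n) : ℝ) := by
    intro x
    rw [Finset.sum_comm]
    have h1 := Finset.sum_le_sum fun u (_ : u ∈ (Finset.univ : Finset V)) => hpair x u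
    have hsw : ∑ u : V, ∑ ω : V → Fin n, (if win ω x u then (1 : ℝ) else 0)
        = ∑ ω : V → Fin n, ∑ u : V, (if win ω x u then (1 : ℝ) else 0) := Finset.sum_comm
    rw [Finset.sum_add_distrib, Finset.sum_const, nsmul_eq_mul, Finset.card_univ, ← hn, ← Finset.mul_sum,
      hsw] at h1
    have h2 : ∑ ω : V → Fin n, ∑ u, (if win ω x u then (1 : ℝ) else 0) ≤ (Fintype.card (V → Fin n) : ℝ) := by
      calc _ ≤ ∑ ω : V → Fin n, (1 : ℝ) := by
            refine Finset.sum_le_sum fun ω _ => ?_
            rw [Finset.sum_boole]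
            have : (Finset.univ.filter (fun u => win ω x u)).card ≤ 1 := by
              rw [Finset.card_le_one]
              intro a ha b hb
              by_contra hab
              have h1 := (Finset.mem_filter.mp ha).2 b (fun h => hab h.symm)
              have h2 := (Finset.mem_filter.mp hb).2 a hab
              exact absurd h1 (not_lt.mpr h2.le)
            exact_mod_cast this
        _ = _ := by simp
    have h3 : (n : ℝ) * (2 * (Fintype.card (V → Fin n) : ℝ) / n) = 2 * (Fintype.card (V → Fin n) : ℝ) := by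
      field_simp
    rw [h3] at h1
    linarith
  have hall : ∑ ω : V → Fin n, ∑ x, ∑ u, mf n (ω u) * kk x u / Fm n kk ω x
      ≤ ∑ _ω : V → Fin n, 4 * (n : ℝ) := by
    rw [Finset.sum_comm, Finset.sum_const, nsmul_eq_mul, Finset.card_univ]
    calc _ ≤ ∑ x : V, 4 * (Fintype.card (V → Fin n) : ℝ) := Finset.sum_le_sum fun x _ => hpoint x
      _ = (Fintype.card (V → Fin n) : ℝ) * (4 * n) := by
          rw [Finset.sum_const, nsmul_eq_mul, Finset.card_univ, ← hn]; ring
  have : Nonempty (Fin n) := ⟨⟨0, hnpos⟩⟩
  obtain ⟨ω, -, hω⟩ := Finset.exists_le_of_sum_le (s := (Finset.univ : Finset (V → Fin n)))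
    Finset.univ_nonempty hall
  exact ⟨ω, hω⟩

end Pool.Agent.TH112.BW
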