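import Mathlib
import Pool.Agent.TH112.BW.Off
import Pool.Agent.TH112.BW.Shift

/-!
The two bounds for the cover time.
-/

set_option autoImplicit false
set_option linter.unusedSectionVars false

namespace Pool.Agent.TH112.BW

open Finset

variable {V : Type} [Fintype V] [DecidableEq V] {G : SimpleGraph V} [DecidableRel G.Adj]

theorem tot_le (w : V → ℝ) (hw : ∀ x, 0 < w x) (hw1 : ∀ x, w x ≤ 1) (Δ : ℕ) (hΔ : ∀ v, G.degree v ≤ Δ) :
    tot G w ≤ Δ * ∑ x, w x := by
  unfold tot
  rw [Finset.mul_sum]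
  refine Finset.sum_le_sum fun x _ => ?_
  rw [mul_comm]
  refine mul_le_mul_of_nonneg_right ?_ (hw x).le
  unfold dg
  calc ∑ y ∈ G.neighborFinset x, w y ≤ ∑ y ∈ G.neighborFinset x, (1 : ℝ) := Finset.sum_le_sum fun y _ => hw1 y
    _ = (G.degree x : ℝ) := by rw [Finset.sum_const, G.card_neighborFinset_eq_degree, nsmul_eq_mul, mul_one]
    _ ≤ Δ := by exact_mod_cast hΔ x

theorem tot_nonneg (w : V → ℝ) (hw : ∀ x, 0 < w x) : 0 ≤ tot G w :=
  Finset.sum_nonneg fun x _ => mul_nonneg (hw x).le (dg_nonneg G w hw x)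

theorem Hh_le_log (n : ℕ) : Hh n ≤ 1 + Real.log n := by
  have h := harmonic_le_one_add_log n
  have e : Hh n = ((harmonic n : ℚ) : ℝ) := by
    unfold Hh harmonic
    push_cast
    exact Finset.sum_congr rfl fun i _ => by rw [one_div]
  rw [e]
  exact h

theorem adj_dist_le (hG : G.Connected) (x y u : V) (h : G.Adj x y) : G.dist y u ≤ G.dist x u + 1 := by
  have h1 := hG.dist_triangle (u := y) (v := x) (w := u)
  have h2 : G.dist y x = 1 := SimpleGraph.dist_eq_one_iff_adj.mpr h.symm
  omega

theorem exists_closer (hG : G.Connected) (x u : V) (d : ℕ) (h : G.dist x u = d + 1) :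
    ∃ z, G.Adj x z ∧ G.dist z u = d := by
  obtain ⟨p, hp⟩ := hG.exists_walk_length_eq_dist x u
  cases p with
  | nil => simp at h
  | @cons _ z _ hadj p' =>
    refine ⟨z, hadj, ?_⟩
    have h1 : G.dist z u ≤ p'.length := SimpleGraph.dist_le p'
    rw [SimpleGraph.Walk.length_cons] at hp
    have h3 := adj_dist_le hG z x u hadj.symm
    omega

/-- the random shift bound -/
theorem bound_polylog (ε : ℝ) (hε0 : 0 < ε) (hε1 : ε < 1) (b : ℝ) (hb0 : 0 < b) (hb1 : b < 1)
    (hb : b ^ 4 = 1 - ε) (Δ : ℕ) (hN : ∀ x, (G.neighborFinset x).Nonempty)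
    (hG : G.Connected) (hΔ : ∀ v, G.degree v ≤ Δ) (v0 : V) (k : ℕ) (S : Finset V) (hS : v0 ∈ S) :
    J G ε hN (Dt v0 Finset.univ) k v0 S
      ≤ 4 * Δ * (Fintype.card V) * (2 * Real.log (Fintype.card V) / Real.log (1 / b) + 1 / b ^ 2)
          * (Real.log (Fintype.card V) + 3) := by
  classical
  have : Nonempty V := ⟨v0⟩
  set n := Fintype.card V with hn
  have hnpos : 0 < n := Fintype.card_pos
  have hnR : (0 : ℝ) < n := by exact_mod_cast hnpos
  have hn1 : (1 : ℝ) ≤ n := by exact_mod_cast hnpos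
  set kk : V → V → ℝ := fun x u => b ^ (G.dist x u) with hkk
  have hkp : ∀ x u, 0 < kk x u := fun x u => pow_pos hb0 _
  obtain ⟨ω, hω⟩ := exists_shift kk hkp
  change ∑ x, ∑ u, mf n (ω u) * kk x u / Fm n kk ω x ≤ 4 * (n : ℝ) at hω
  set m : V → ℝ := fun u => mf n (ω u) with hm
  have hmp : ∀ u, 0 < m u := fun u => mf_pos n _ hnpos
  have hm1 : ∀ u, 1 ≤ m u := by
    intro u
    simp only [hm, mf]
    have h1 : ((ω u : ℕ) : ℝ) + 1 ≤ n := by
      have := (ω u).isLt
      exact_mod_cast this
    have h2 : 1 ≤ (n : ℝ) / (((ω u : ℕ) : ℝ) + 1) := by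
      rw [le_div_iff₀ (by positivity), one_mul]; exact h1
    nlinarith
  have hmn : ∀ u, m u ≤ (n : ℝ) ^ 2 := by
    intro u
    simp only [hm, mf]
    apply pow_le_pow_left₀ (by positivity)
    rw [div_le_iff₀ (by positivity)]
    nlinarith [Nat.cast_nonneg (α := ℝ) (ω u : ℕ)]
  set F : V → ℝ := fun x => Fm n kk ω x with hF
  have hFle : ∀ x u, m u * kk x u ≤ F x := fun x u =>
    Finset.le_sup' (fun u => mf n (ω u) * kk x u) (Finset.mem_univ u)
  have hFex : ∀ x, ∃ u, m u * kk x u = F x := by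
    intro x
    obtain ⟨u, -, hu⟩ := Finset.exists_mem_eq_sup' (Finset.univ_nonempty (α := V))
      (fun u => mf n (ω u) * kk x u)
    exact ⟨u, hu.symm⟩
  have hFpos : ∀ x, 0 < F x := fun x => lt_of_lt_of_le (mul_pos (hmp x) (hkp x x)) (hFle x x)
  have hF1 : ∀ x, 1 ≤ F x := by
    intro x
    have h1 := hFle x x
    simp only [hkk, SimpleGraph.dist_self, pow_zero, mul_one] at h1
    linarith [hm1 x]
  have hFadj : ∀ x y, G.Adj x y → b * F y ≤ F x := by
    intro x y hxy
    obtain ⟨u, hu⟩ := hFex y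
    rw [← hu]
    refine le_trans ?_ (hFle x u)
    have h1 := adj_dist_le hG y x u hxy.symm
    have h2 : b ^ (G.dist y u + 1) ≤ b ^ (G.dist x u) := pow_le_pow_of_le_one hb0.le hb1.le h1
    simp only [hkk]
    calc b * (m u * b ^ G.dist y u) = m u * b ^ (G.dist y u + 1) := by ring
      _ ≤ m u * b ^ G.dist x u := mul_le_mul_of_nonneg_left h2 (hmp u).le
  set w : V → V → ℝ := fun u x => m u * kk x u / F x with hw
  have hwp : ∀ u x, 0 < w u x := fun u x => div_pos (mul_pos (hmp u) (hkp x u)) (hFpos x)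
  have hw1 : ∀ u x, w u x ≤ 1 := fun u x => by
    simp only [hw]
    rw [div_le_one (hFpos x)]
    exact hFle x u
  have hwadj : ∀ u x y, G.Adj x y → b ^ 2 * w u x ≤ w u y := by
    intro u x y hxy
    simp only [hw]
    have h1 := adj_dist_le hG x y u hxy
    have h2 : b ^ (G.dist x u + 1) ≤ b ^ (G.dist y u) := pow_le_pow_of_le_one hb0.le hb1.le h1
    have h3 := hFadj x y hxy
    rw [mul_div_assoc', div_le_div_iff₀ (hFpos x) (hFpos y)]
    simp only [hkk]
    calc b ^ 2 * (m u * b ^ G.dist x u) * F y = (m u * b ^ (G.dist x u + 1)) * (b * F y) := by ring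
      _ ≤ (m u * b ^ (G.dist y u)) * F x :=
          mul_le_mul (mul_le_mul_of_nonneg_left h2 (hmp u).le) h3
            (mul_nonneg hb0.le (hFpos y).le) (mul_nonneg (hmp u).le (pow_nonneg hb0.le _))
  have hadm : ∀ u, Adm G ε (w u) := by
    intro u
    refine ⟨hwp u, fun x y z hxy hxz => ?_⟩
    have h1 := hwadj u x y hxy
    have h2 := hwadj u z x hxz.symm
    rw [← hb]
    calc b ^ 4 * w u z = b ^ 2 * (b ^ 2 * w u z) := by ring
      _ ≤ b ^ 2 * w u x := mul_le_mul_of_nonneg_left h2 (by positivity)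
      _ ≤ w u y := h1
  -- clusters
  set e := Fintype.equivFin V with he
  have hcl : ∀ x, ∃ u, m u * kk x u = F x ∧ ∀ u', m u' * kk x u' = F x → e u ≤ e u' := by
    intro x
    obtain ⟨u0, hu0⟩ := hFex x
    obtain ⟨u, hu, hum⟩ := Finset.exists_min_image (Finset.univ.filter (fun u => m u * kk x u = F x)) e
      ⟨u0, by simp [hu0]⟩
    exact ⟨u, (Finset.mem_filter.mp hu).2, fun u' hu' => hum u' (by simp [hu'])⟩
  choose cl hcl1 hcl2 using hcl
  have hself : ∀ x, m (cl x) * kk (cl x) (cl x) = F (cl x) := by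
    intro x
    refine le_antisymm (hFle _ _) ?_
    obtain ⟨u', hu'⟩ := hFex (cl x)
    rw [← hu']
    have h1 := hFle x u'
    rw [← hcl1 x] at h1
    simp only [hkk, SimpleGraph.dist_self, pow_zero, mul_one] at h1 ⊢
    have h2 := hG.dist_triangle (u := x) (v := cl x) (w := u')
    have h3 : b ^ (G.dist x (cl x) + G.dist (cl x) u') ≤ b ^ (G.dist x u') :=
      pow_le_pow_of_le_one hb0.le hb1.le h2
    have h4 : 0 < b ^ G.dist x (cl x) := pow_pos hb0 _
    have h5 : (m u' * b ^ G.dist (cl x) u') * b ^ G.dist x (cl x) ≤ m (cl x) * b ^ G.dist x (cl x) := by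
      refine le_trans ?_ h1
      calc (m u' * b ^ G.dist (cl x) u') * b ^ G.dist x (cl x)
          = m u' * b ^ (G.dist x (cl x) + G.dist (cl x) u') := by rw [pow_add]; ring
        _ ≤ m u' * b ^ G.dist x u' := mul_le_mul_of_nonneg_left h3 (hmp u').le
    exact le_of_mul_le_mul_right h5 h4
  have hidem : ∀ x, cl (cl x) = cl x := by
    intro x
    apply e.injective
    apply le_antisymm
    · exact hcl2 (cl x) (cl x) (hself x)
    · apply hcl2 x (cl (cl x))
      refine le_antisymm (hFle _ _) ?_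
      have h0 := hcl1 (cl x)
      rw [← hself x] at h0
      rw [← hcl1 x]
      simp only [hkk, SimpleGraph.dist_self, pow_zero, mul_one] at h0 ⊢
      have h2 := hG.dist_triangle (u := x) (v := cl x) (w := cl (cl x))
      have h3 : b ^ (G.dist x (cl x) + G.dist (cl x) (cl (cl x))) ≤ b ^ (G.dist x (cl (cl x))) :=
        pow_le_pow_of_le_one hb0.le hb1.le h2
      calc m (cl x) * b ^ G.dist x (cl x)
          = m (cl (cl x)) * b ^ (G.dist x (cl x) + G.dist (cl x) (cl (cl x))) := by
            rw [← h0, pow_add]; ring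
        _ ≤ m (cl (cl x)) * b ^ G.dist x (cl (cl x)) := mul_le_mul_of_nonneg_left h3 (hmp _).le
  -- resistance
  have hlogb : 0 < Real.log (1 / b) := Real.log_pos (by rw [lt_div_iff₀ hb0]; linarith)
  have hrad : ∀ x u, m u * kk x u = F x → (G.dist x u : ℝ) ≤ 2 * Real.log n / Real.log (1 / b) := by
    intro x u hxu
    rw [le_div_iff₀ hlogb]
    have h1 : 1 ≤ (n : ℝ) ^ 2 * b ^ G.dist x u := by
      calc (1 : ℝ) ≤ F x := hF1 x
        _ = m u * b ^ G.dist x u := hxu.symm
        _ ≤ _ := mul_le_mul_of_nonneg_right (hmn u) (pow_nonneg hb0.le _)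
    have h2 := Real.log_le_log one_pos h1
    rw [Real.log_one, Real.log_mul (by positivity) (by positivity), Real.log_pow, Real.log_pow] at h2
    rw [one_div, Real.log_inv]
    push_cast at h2
    linarith
  have hresd : ∀ u (f : V → ℝ) (I : ℝ), FlowLe G (w u) f I → ∀ d x, G.dist x u = d →
      m u * kk x u = F x → f x - f u ≤ d * I ∧ f u - f x ≤ d * I := by
    intro u f I hfl d
    induction d with
    | zero =>
      intro x hx _
      have : x = u := (hG.dist_eq_zero_iff).mp hx
      rw [this]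
      simp
    | succ d ih =>
      intro x hx hxF
      obtain ⟨z, hz1, hz2⟩ := exists_closer hG x u d hx
      have hzF : m u * kk z u = F z := by
        refine le_antisymm (hFle z u) ?_
        have h1 := hFadj x z hz1
        rw [← hxF] at h1
        simp only [hkk] at h1 ⊢
        rw [hx, pow_succ] at h1
        rw [hz2]
        have h2 : b * F z ≤ b * (m u * b ^ d) := by linarith
        exact le_of_mul_le_mul_left h2 hb0
      have hwx : w u x = 1 := by
        simp only [hw]
        rw [hxF, div_self (hFpos x).ne']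
      have hwz : w u z = 1 := by
        simp only [hw]
        rw [hzF, div_self (hFpos z).ne']
      have h3 := hfl x z hz1
      have h4 := hfl z x hz1.symm
      rw [hwx, hwz] at h3 h4
      have h5 := ih z hz2 hzF
      push_cast
      constructor <;> linarith [h5.1, h5.2]
  set L := 2 * Real.log n / Real.log (1 / b) with hL
  have hlogn : 0 ≤ Real.log n := Real.log_nonneg hn1
  have hL0 : 0 ≤ L := div_nonneg (by linarith) hlogb.le
  have hRes : ∀ u x, cl u = u → (cl x = u ∨ ∃ y, G.Adj x y ∧ cl y = u) → Res G (w u) x u (L + 1 / b ^ 2) := by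
    intro u x _ hx f I hI hfl
    have hb2 : 0 < b ^ 2 := by positivity
    rcases hx with hx | ⟨y, hxy, hy⟩
    · have h1 := hcl1 x
      rw [hx] at h1
      have h2 := hresd u f I hfl _ x rfl h1
      have h3 := mul_le_mul_of_nonneg_right (hrad x u h1) hI
      have h4 : 0 ≤ 1 / b ^ 2 * I := by positivity
      constructor <;> linarith [h2.1, h2.2]
    · have h1 := hcl1 y
      rw [hy] at h1
      have h2 := hresd u f I hfl _ y rfl h1
      have h3 := mul_le_mul_of_nonneg_right (hrad y u h1) hI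
      have hwy : w u y = 1 := by
        simp only [hw]
        rw [h1, div_self (hFpos y).ne']
      have hwx : b ^ 2 ≤ w u x := by
        have := hwadj u y x hxy.symm
        rw [hwy] at this
        linarith
      have h5 := hfl x y hxy
      have h6 := hfl y x hxy.symm
      rw [hwy] at h5 h6
      have h7 : f x - f y ≤ 1 / b ^ 2 * I := by
        rcases le_or_gt 0 (f x - f y) with hpos | hneg
        · have := mul_le_mul_of_nonneg_right hwx hpos
          rw [one_div, ← div_eq_inv_mul, le_div_iff₀ hb2]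
          linarith
        · have : 0 ≤ 1 / b ^ 2 * I := by positivity
          linarith
      have h8 : f y - f x ≤ 1 / b ^ 2 * I := by
        rcases le_or_gt 0 (f y - f x) with hpos | hneg
        · have := mul_le_mul_of_nonneg_right hwx hpos
          rw [one_div, ← div_eq_inv_mul, le_div_iff₀ hb2]
          linarith
        · have : 0 ≤ 1 / b ^ 2 * I := by positivity
          linarith
      constructor <;> linarith [h2.1, h2.2]
  have hR0 : 0 ≤ L + 1 / b ^ 2 := by positivity
  have hfin := J_dfs hε0.le hε1.le hN hG cl hidem w (fun u _ => hadm u) (L + 1 / b ^ 2) hR0 hRes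
    (fun u => tot G (w u) * (L + 1 / b ^ 2) * (Real.log n + 3))
    (fun u => mul_nonneg (mul_nonneg (tot_nonneg _ (hwp u)) hR0) (by linarith))
    (fun u _ => by
      refine mul_le_mul_of_nonneg_left ?_ (mul_nonneg (tot_nonneg _ (hwp u)) hR0)
      have h1 : Hh (nb G cl u).card ≤ Hh n := Hh_mono (Finset.card_le_univ _)
      have h2 := Hh_le_log n
      linarith)
    v0 k S hS
  refine hfin.trans ?_
  rw [← Finset.sum_mul, ← Finset.sum_mul]
  have h1 : ∑ u, tot G (w u) ≤ 4 * Δ * n := by
    calc ∑ u, tot G (w u) ≤ ∑ u, (Δ : ℝ) * ∑ x, w u x :=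
          Finset.sum_le_sum fun u _ => tot_le (w u) (hwp u) (hw1 u) Δ hΔ
      _ = Δ * ∑ x, ∑ u, w u x := by rw [← Finset.mul_sum, Finset.sum_comm]
      _ ≤ Δ * (4 * n) := mul_le_mul_of_nonneg_left hω (Nat.cast_nonneg _)
      _ = _ := by ring
  exact mul_le_mul_of_nonneg_right (mul_le_mul_of_nonneg_right h1 hR0) (by linarith)

/-- the bound by single targets -/
theorem bound_growth (ε : ℝ) (hε0 : 0 < ε) (hε1 : ε < 1) (b : ℝ) (hb0 : 0 < b) (hb1 : b < 1)
    (hb : b ^ 2 = 1 - ε) (Δ : ℕ) (hN : ∀ x, (G.neighborFinset x).Nonempty)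
    (hG : G.Connected) (hΔ : ∀ v, G.degree v ≤ Δ) (v0 : V) (k : ℕ) (S : Finset V) (hS : v0 ∈ S) :
    J G ε hN (Dt v0 Finset.univ) k v0 S
      ≤ Δ * (1 / b) ^ 2 * (Hh Δ + 2) * ∑ x, ∑ y, (1 - ε) ^ (G.dist x y) := by
  classical
  set w : V → V → ℝ := fun u x => b ^ (G.dist x u) with hw
  have hwp : ∀ u x, 0 < w u x := fun u x => pow_pos hb0 _
  have hadm : ∀ u, Adm G ε (w u) := by
    intro u
    refine ⟨hwp u, fun x y z hxy hxz => ?_⟩
    have h1 := adj_dist_le hG x y u hxy
    have h2 := adj_dist_le hG z x u hxz.symm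
    simp only [hw]
    rw [← hb, ← pow_add]
    exact pow_le_pow_of_le_one hb0.le hb1.le (by omega)
  have hbi : 0 ≤ 1 / b := by positivity
  have hRes : ∀ u x, (fun v : V => v) u = u → ((fun v : V => v) x = u ∨ ∃ y, G.Adj x y ∧ (fun v : V => v) y = u)
      → Res G (w u) x u (1 / b) := by
    intro u x _ hx f I hI hfl
    rcases hx with hx | ⟨y, hxy, hy⟩
    · simp only at hx
      rw [hx]
      have : 0 ≤ 1 / b * I := by positivity
      constructor <;> linarith
    · simp only at hy
      subst hy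
      have h1 := hfl x y hxy
      have h2 := hfl y x hxy.symm
      have e1 : w y y = 1 := by simp [hw]
      have e2 : w y x = b := by
        simp only [hw]
        rw [SimpleGraph.dist_eq_one_iff_adj.mpr hxy, pow_one]
      rw [e1, e2] at h1 h2
      rw [one_div, ← div_eq_inv_mul]
      constructor
      · rw [le_div_iff₀ hb0]; linarith
      · rw [le_div_iff₀ hb0]; linarith
  have htot : ∀ u, tot G (w u) ≤ Δ * (1 / b) * ∑ x, (1 - ε) ^ (G.dist u x) := by
    intro u
    unfold tot
    rw [Finset.mul_sum]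
    refine Finset.sum_le_sum fun x _ => ?_
    have h1 : dg G (w u) x ≤ Δ * ((1 / b) * b ^ (G.dist x u)) := by
      unfold dg
      calc ∑ y ∈ G.neighborFinset x, w u y ≤ ∑ y ∈ G.neighborFinset x, (1 / b) * b ^ (G.dist x u) := by
            refine Finset.sum_le_sum fun y hy => ?_
            have hy' : G.Adj x y := by simpa using hy
            have h2 := adj_dist_le hG y x u hy'.symm
            simp only [hw]
            rw [one_div, ← div_eq_inv_mul, le_div_iff₀ hb0, ← pow_succ]
            exact pow_le_pow_of_le_one hb0.le hb1.le h2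
        _ = (G.degree x : ℝ) * ((1 / b) * b ^ (G.dist x u)) := by
            rw [Finset.sum_const, G.card_neighborFinset_eq_degree, nsmul_eq_mul]
        _ ≤ _ := mul_le_mul_of_nonneg_right (by exact_mod_cast hΔ x) (by positivity)
    calc w u x * dg G (w u) x ≤ w u x * (Δ * ((1 / b) * b ^ (G.dist x u))) :=
          mul_le_mul_of_nonneg_left h1 (hwp u x).le
      _ = Δ * (1 / b) * (1 - ε) ^ (G.dist u x) := by
          simp only [hw]
          rw [← hb, SimpleGraph.dist_comm (u := u) (v := x), ← pow_mul, mul_comm 2, pow_mul]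
          ring
  have hnb : ∀ u, (nb G (fun v : V => v) u).card ≤ Δ := by
    intro u
    refine le_trans (Finset.card_le_card (t := G.neighborFinset u) ?_) ?_
    · intro x hx
      unfold nb at hx
      rw [Finset.mem_erase, Finset.mem_filter] at hx
      obtain ⟨h1, -, h2⟩ := hx
      rcases h2 with h2 | ⟨y, hxy, hy⟩
      · exact absurd h2 h1
      · simp only at hy
        subst hy
        simpa using hxy.symm
    · rw [G.card_neighborFinset_eq_degree]
      exact hΔ u
  have hH0 : 0 ≤ Hh Δ + 2 := by linarith [Hh_nonneg Δ]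
  have hfin := J_dfs hε0.le hε1.le hN hG (fun v : V => v) (fun _ => rfl) w (fun u _ => hadm u) (1 / b) hbi hRes
    (fun u => tot G (w u) * (1 / b) * (Hh Δ + 2))
    (fun u => mul_nonneg (mul_nonneg (tot_nonneg _ (hwp u)) hbi) hH0)
    (fun u _ => by
      refine mul_le_mul_of_nonneg_left ?_ (mul_nonneg (tot_nonneg _ (hwp u)) hbi)
      have h1 : Hh (nb G (fun v : V => v) u).card ≤ Hh Δ := Hh_mono (hnb u)
      linarith)
    v0 k S hS
  refine hfin.trans ?_
  rw [← Finset.sum_mul, ← Finset.sum_mul]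
  calc (∑ u, tot G (w u)) * (1 / b) * (Hh Δ + 2)
      ≤ (∑ u, (Δ : ℝ) * (1 / b) * ∑ x, (1 - ε) ^ (G.dist u x)) * (1 / b) * (Hh Δ + 2) :=
        mul_le_mul_of_nonneg_right (mul_le_mul_of_nonneg_right (Finset.sum_le_sum fun u _ => htot u) hbi) hH0
    _ = _ := by
        rw [← Finset.mul_sum]
        ring

end Pool.Agent.TH112.BW
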